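import Pool.Agent.H750.VdB

set_option autoImplicit false

/-! # Two unimodular forms which differ by twice an even form -/

namespace Pool.Agent.H750

open Matrix Polynomial

variable {ι : Type*} [Fintype ι] [DecidableEq ι]

theorem det_one_add (B : Matrix ι ι ℤ) (c : ℤ) :
    (16 : ℤ) ∣ (1 + (4 * c) • B).det - (1 + 4 * c * B.trace) := by
  rw [Matrix.det_one_add_smul]
  exact ⟨(det (1 + (X : ℤ[X]) • B.map C)).divX.divX.eval (4 * c) * c ^ 2, by ring⟩

theorem det_diff (B : Matrix ι ι ℤ) :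
    (16 : ℤ) ∣ (1 + (2 : ℤ) • B).det - (1 + (-2 : ℤ) • B).det - 4 * B.trace := by
  rw [Matrix.det_one_add_smul 2 B, Matrix.det_one_add_smul (-2) B]
  set q := (det (1 + (X : ℤ[X]) • B.map C)).divX.divX with hq
  obtain ⟨k, hk⟩ : (4 : ℤ) ∣ q.eval 2 - q.eval (-2) := by
    have := Polynomial.sub_dvd_eval_sub (2 : ℤ) (-2) q
    norm_num at this
    exact this
  exact ⟨k, by linear_combination 4 * hk⟩

theorem trace_sq_two (M : Matrix ι ι (ZMod 2)) : (M * M).trace = M.trace := by
  have h := ZMod.trace_pow_card (p := 2) M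
  rw [pow_two, pow_two] at h
  rw [h]
  have : ∀ a : ZMod 2, a * a = a := by decide
  exact this _

theorem trace_ZWZW (Z W : Matrix ι ι (ZMod 2)) (hZ : Zᵀ = Z) :
    (Z * (W * Z * Wᵀ)).trace = (fun i => Z i i) ⬝ᵥ (W *ᵥ fun i => Z i i) := by
  have h2 : ∀ r : ZMod 2, r + r = 0 := by decide
  have hs : ∀ a b, Z a b = Z b a := by
    intro a b; rw [← Matrix.transpose_apply Z b a, hZ]
  have hN : (W * Z * Wᵀ)ᵀ = W * Z * Wᵀ := by
    rw [Matrix.transpose_mul, Matrix.transpose_mul, Matrix.transpose_transpose, hZ,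
      Matrix.mul_assoc]
  have hNs : ∀ a b, (W * Z * Wᵀ) a b = (W * Z * Wᵀ) b a := by
    intro a b
    conv_lhs => rw [← hN]
    rfl
  have h0 : (Z * (W * Z * Wᵀ)).trace = ∑ i, ∑ j, Z i j * (W * Z * Wᵀ) j i := by
    rw [Matrix.trace]
    refine Finset.sum_congr rfl fun i _ => ?_
    rw [Matrix.diag_apply, Matrix.mul_apply]
  rw [h0, sum_symm_two h2 (fun i j => Z i j * (W * Z * Wᵀ) j i)
    (fun i j => by rw [hs i j, hNs i j]), dotProduct]
  refine Finset.sum_congr rfl fun i _ => ?_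
  congr 1
  rw [Matrix.mul_apply, Matrix.mulVec, dotProduct]
  simp_rw [Matrix.mul_apply, Finset.sum_mul, Matrix.transpose_apply]
  rw [sum_symm_two h2 (fun j k => W i k * Z k j * W i j) (fun j k => by rw [hs j k]; ring)]
  refine Finset.sum_congr rfl fun j _ => ?_
  have h3 : ∀ a b : ZMod 2, a * b * a = a * b := by decide
  exact h3 _ _

/-- If `S` and `S - 2 Y` are unimodular symmetric matrices, `Y = W + Wᵀ`, and `t` is a
characteristic vector of `S`, then `t · W t` is even, that is, `t · Y t` is divisible by four. -/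
theorem even_of_unimodular (S W : Matrix ι ι ℤ) (hS : IsUnit S) (hsym : Sᵀ = S)
    (hS' : IsUnit (S - (2 : ℤ) • (W + Wᵀ))) (t : ι → ℤ)
    (ht : ∀ i, Even ((S *ᵥ t) i + S i i)) : Even (t ⬝ᵥ (W *ᵥ t)) := by
  obtain ⟨U, rfl⟩ := hS
  set S := U.val with hSdef
  set Z : Matrix ι ι ℤ := (U⁻¹).val with hZdef
  have hZS : Z * S = 1 := U.inv_mul
  have hSZ : S * Z = 1 := U.mul_inv
  have hZsym : Zᵀ = Z := by
    have h1 : Zᵀ * S = 1 := by
      rw [← hsym, ← Matrix.transpose_mul, hSZ, Matrix.transpose_one]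
    calc Zᵀ = Zᵀ * (S * Z) := by rw [hSZ, Matrix.mul_one]
      _ = Z := by rw [← Matrix.mul_assoc, h1, Matrix.one_mul]
  -- the determinants
  set B := Z * (W + Wᵀ) with hB
  have hdetS : IsUnit S.det := (Matrix.isUnit_iff_isUnit_det S).mp ⟨U, rfl⟩
  have hdetZ : IsUnit Z.det := (Matrix.isUnit_iff_isUnit_det Z).mp ⟨U⁻¹, rfl⟩
  have hdet' : IsUnit (S - (2 : ℤ) • (W + Wᵀ)).det := (Matrix.isUnit_iff_isUnit_det _).mp hS'
  have e1 : (1 + (-2 : ℤ) • B) = Z * (S - (2 : ℤ) • (W + Wᵀ)) := by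
    rw [Matrix.mul_sub, hZS, Matrix.mul_smul, hB, neg_smul, sub_eq_add_neg]
  have he : IsUnit (1 + (-2 : ℤ) • B).det := by
    rw [e1, Matrix.det_mul]; exact hdetZ.mul hdet'
  set e := (1 + (-2 : ℤ) • B).det with hedef
  have hee : e = 1 ∨ e = -1 := Int.isUnit_iff.mp he
  obtain ⟨a, ha⟩ := det_diff B
  obtain ⟨b, hb⟩ := det_one_add (B * B) (-1)
  have e2 : (1 + (4 * (-1) : ℤ) • (B * B)) = (1 + (2 : ℤ) • B) * (1 + (-2 : ℤ) • B) := by
    rw [Matrix.mul_add, Matrix.mul_one, Matrix.add_mul, Matrix.one_mul, smul_mul_smul_comm,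
      neg_smul (2 : ℤ) B]
    norm_num
  rw [e2, Matrix.det_mul, ← hedef] at hb
  set p := (1 + (2 : ℤ) • B).det with hp
  have htrB : B.trace = 2 * (Z * W).trace := by
    rw [hB, Matrix.mul_add, Matrix.trace_add]
    have : (Z * Wᵀ).trace = (Z * W).trace := by
      rw [← Matrix.trace_transpose, Matrix.transpose_mul, Matrix.transpose_transpose, hZsym,
        Matrix.trace_mul_comm]
    rw [this]; ring
  have htrBB : (B * B).trace = 2 * ((Z * W) * (Z * W)).trace + 2 * (Z * (W * Z * Wᵀ)).trace := by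
    have h1 : B * B = (Z * W) * (Z * W) + Z * (W * Z * Wᵀ) + (Z * (Wᵀ * Z * W) +
        (Z * Wᵀ) * (Z * Wᵀ)) := by
      rw [hB]
      simp only [Matrix.mul_add, Matrix.add_mul, Matrix.mul_assoc]
      abel
    have h2 : (Z * (Wᵀ * Z * W)).trace = (Z * (W * Z * Wᵀ)).trace := by
      rw [← Matrix.mul_assoc, Matrix.trace_mul_comm, ← Matrix.mul_assoc, ← Matrix.mul_assoc,
        ← Matrix.mul_assoc, Matrix.trace_mul_comm, ← Matrix.mul_assoc, ← Matrix.mul_assoc]
    have h3 : ((Z * Wᵀ) * (Z * Wᵀ)).trace = ((Z * W) * (Z * W)).trace := by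
      rw [← Matrix.trace_transpose, Matrix.transpose_mul, Matrix.transpose_mul,
        Matrix.transpose_transpose, hZsym, ← Matrix.mul_assoc, Matrix.trace_mul_comm,
        ← Matrix.mul_assoc, ← Matrix.mul_assoc, ← Matrix.mul_assoc]
    rw [h1, Matrix.trace_add, Matrix.trace_add, Matrix.trace_add, h2, h3]
    ring
  have key : Even ((Z * W).trace + ((Z * W) * (Z * W)).trace + (Z * (W * Z * Wᵀ)).trace) := by
    rw [htrB, ← hedef] at ha
    rw [htrBB] at hb
    rcases hee with h | h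
    · rw [h] at ha hb
      rw [even_iff_two_dvd]
      refine ⟨b - a, ?_⟩
      linarith
    · rw [h] at ha hb
      rw [even_iff_two_dvd]
      refine ⟨b + a + (Z * W).trace, ?_⟩
      linarith
  -- reduction modulo two
  have h2 : ∀ r : ZMod 2, r + r = 0 := by decide
  set f : ℤ →+* ZMod 2 := Int.castRingHom (ZMod 2) with hf
  have hkey : ((Z.map f) * (W.map f * Z.map f * (W.map f)ᵀ)).trace = 0 := by
    have h3 := congrArg f (show _ = _ from rfl : ((Z * W).trace + ((Z * W) * (Z * W)).trace +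
      (Z * (W * Z * Wᵀ)).trace) = _)
    have h4 : f ((Z * W).trace + ((Z * W) * (Z * W)).trace + (Z * (W * Z * Wᵀ)).trace) = 0 := by
      rw [hf, eq_intCast, ZMod.intCast_eq_zero_iff_even]; exact key
    have h5 : ∀ M : Matrix ι ι ℤ, f M.trace = (M.map f).trace := by
      intro M
      exact AddMonoidHom.map_trace f.toAddMonoidHom M
    rw [map_add, map_add, h5, h5, h5] at h4
    simp only [Matrix.map_mul, Matrix.transpose_map] at h4
    rw [trace_sq_two, h2, zero_add] at h4
    exact h4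
  rw [trace_ZWZW _ _ (by rw [← Matrix.transpose_map, hZsym])] at hkey
  -- `t` is congruent to the diagonal of `Z`
  have htz : ∀ i, f (t i) = f (Z i i) := by
    intro i
    have h3 : ∀ j, f ((S *ᵥ t) j) = f (S j j) := by
      intro j
      have h4 : f ((S *ᵥ t) j + S j j) = 0 := by
        rw [hf, eq_intCast, ZMod.intCast_eq_zero_iff_even]; exact ht j
      rw [map_add] at h4
      have h5 : ∀ a b : ZMod 2, a + b = 0 → a = b := by decide
      exact h5 _ _ h4
    have h4 : t i = ∑ j, Z i j * (S *ᵥ t) j := by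
      have : t = Z *ᵥ (S *ᵥ t) := by rw [Matrix.mulVec_mulVec, hZS, Matrix.one_mulVec]
      conv_lhs => rw [this]
      rfl
    have h5 : Z i i = ∑ j, ∑ k, Z i j * S j k * Z i k := by
      have : Z = Z * S * Zᵀ := by rw [hZS, Matrix.one_mul, hZsym]
      conv_lhs => rw [this]
      rw [Matrix.mul_apply]
      simp_rw [Matrix.mul_apply, Finset.sum_mul, Matrix.transpose_apply]
      rw [Finset.sum_comm]
    rw [h4, h5, map_sum, map_sum]
    simp_rw [map_sum]
    rw [sum_symm_two h2 (fun j k => f (Z i j * S j k * Z i k))]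
    · refine Finset.sum_congr rfl fun j _ => ?_
      rw [map_mul, h3, map_mul, map_mul]
      have h6 : ∀ a b : ZMod 2, a * b = a * b * a := by decide
      exact h6 _ _
    · intro j k
      have h7 : S j k = S k j := by rw [← Matrix.transpose_apply S k j, hsym]
      rw [h7]
      congr 1; ring
  have hfin : f (t ⬝ᵥ (W *ᵥ t)) = 0 := by
    rw [← hkey, dotProduct, dotProduct, map_sum]
    refine Finset.sum_congr rfl fun i _ => ?_
    rw [map_mul, htz i]
    congr 1
    rw [Matrix.mulVec, Matrix.mulVec, dotProduct, dotProduct, map_sum]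
    refine Finset.sum_congr rfl fun j _ => ?_
    rw [map_mul, htz j]
    rfl
  rw [hf, eq_intCast, ZMod.intCast_eq_zero_iff_even] at hfin
  exact hfin

end Pool.Agent.H750
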