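import Pool.Graph.R_seed8.R791.Bar

set_option autoImplicit false

/-! # Symmetric forms over integral group rings: definitions -/

namespace Pool.Agent.H750

open Matrix Pool.Agent.R791

variable {Γ : Type*} [Group Γ] {ι κ : Type*}

/-- The forms with the matrices `A` and `B` are isometric: `B = P A P*` for an invertible (a priori
rectangular) matrix `P` over the group ring. Here `P*` is the adjoint matrix for the involution
`g ↦ g⁻¹` of the group ring. -/
def Isometric [Fintype ι] [Fintype κ] [DecidableEq ι] [DecidableEq κ]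
    (A : Matrix ι ι (MonoidAlgebra ℤ Γ)) (B : Matrix κ κ (MonoidAlgebra ℤ Γ)) : Prop :=
  ∃ (P : Matrix κ ι (MonoidAlgebra ℤ Γ)) (Q : Matrix ι κ (MonoidAlgebra ℤ Γ)),
    P * Q = 1 ∧ Q * P = 1 ∧ P * A * adj P = B

/-- The orthogonal sum of two forms. -/
noncomputable def osum (A : Matrix ι ι (MonoidAlgebra ℤ Γ)) (B : Matrix κ κ (MonoidAlgebra ℤ Γ)) :
    Matrix (ι ⊕ κ) (ι ⊕ κ) (MonoidAlgebra ℤ Γ) := fromBlocks A 0 0 B

/-- The diagonal form with the entries `e 0, ..., e (k - 1)`, each of them `1` or `-1`. -/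
noncomputable def signForm (Γ : Type*) [Group Γ] {k : ℕ} (e : Fin k → ℤˣ) :
    Matrix (Fin k) (Fin k) (MonoidAlgebra ℤ Γ) :=
  diagonal fun i => ((e i : ℤ) : MonoidAlgebra ℤ Γ)

/-- Even forms (quadratic forms): the symmetrisations `ψ + ψ*`. -/
def IsEvenForm (B : Matrix ι ι (MonoidAlgebra ℤ Γ)) : Prop :=
  ∃ ψ : Matrix ι ι (MonoidAlgebra ℤ Γ), B = ψ + adj ψ

/-- A matrix is visible if the coefficients of its diagonal entries at the elements of order two are
even. If the group has no element of order two then all matrices are visible. -/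
def Visible (A : Matrix ι ι (MonoidAlgebra ℤ Γ)) : Prop :=
  ∀ i, ∀ s : Γ, s ≠ 1 → s * s = 1 → Even ((A i i).coeff s)

/-- The integral matrix whose entries are the sums of the coefficients of the entries of `A`. -/
noncomputable def augMat (A : Matrix ι κ (MonoidAlgebra ℤ Γ)) : Matrix ι κ ℤ :=
  Matrix.of fun i j => (A i j).coeff.sum fun _ a => a

/-- For a representation `ρ` by integral matrices and an integral matrix `b`, the integral matrix
with the blocks `b ρ(A i j)`, where `ρ (∑ a g) = ∑ a ρ(g)`. -/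
noncomputable def twist {d : ℕ} (b : Matrix (Fin d) (Fin d) ℤ) (ρ : Γ →* Matrix (Fin d) (Fin d) ℤ)
    (A : Matrix ι ι (MonoidAlgebra ℤ Γ)) : Matrix (ι × Fin d) (ι × Fin d) ℤ :=
  Matrix.of fun x y => (b * (A x.1 y.1).coeff.sum fun g a => a • ρ g) x.2 y.2

end Pool.Agent.H750
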