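import Pool.Agent.H750.OddNorms
import Pool.Agent.H750.SymDefs

set_option autoImplicit false

/-! # Isometries of forms over group rings -/

namespace Pool.Agent.H750

open Matrix Pool.Agent.R791

variable {Γ : Type*} [Group Γ] {ι κ μ ν : Type*}

theorem adj_adj (A : Matrix ι κ (MonoidAlgebra ℤ Γ)) : adj (adj A) = A := by
  ext1 i j; rw [adj_apply, adj_apply, bar_bar]

theorem adj_add (A B : Matrix ι κ (MonoidAlgebra ℤ Γ)) : adj (A + B) = adj A + adj B := by
  ext1 i j; rw [adj_apply, Matrix.add_apply, bar_add]; rfl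

theorem adj_neg (A : Matrix ι κ (MonoidAlgebra ℤ Γ)) : adj (-A) = -adj A := by
  ext1 i j; rw [adj_apply, Matrix.neg_apply, bar_neg']; rfl

theorem adj_sub (A B : Matrix ι κ (MonoidAlgebra ℤ Γ)) : adj (A - B) = adj A - adj B := by
  rw [sub_eq_add_neg, adj_add, adj_neg, ← sub_eq_add_neg]

theorem adj_zero : adj (0 : Matrix ι κ (MonoidAlgebra ℤ Γ)) = 0 := by
  ext1 i j; rw [adj_apply]; simp

theorem adj_fromBlocks (A : Matrix ι κ (MonoidAlgebra ℤ Γ)) (B : Matrix ι ν (MonoidAlgebra ℤ Γ)) (C : Matrix μ κ (MonoidAlgebra ℤ Γ)) (D : Matrix μ ν (MonoidAlgebra ℤ Γ)) :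
    adj (fromBlocks A B C D) = fromBlocks (adj A) (adj C) (adj B) (adj D) := by
  ext1 i j
  rcases i with i | i <;> rcases j with j | j <;> rfl

section iso

variable [Fintype ι] [Fintype κ] [Fintype μ] [Fintype ν] [DecidableEq ι] [DecidableEq κ]
  [DecidableEq μ] [DecidableEq ν]

theorem Isometric.refl (A : Matrix ι ι (MonoidAlgebra ℤ Γ)) : Isometric A A :=
  ⟨1, 1, by simp, by simp, by rw [adj_one]; simp⟩

theorem Isometric.symm {A : Matrix ι ι (MonoidAlgebra ℤ Γ)} {B : Matrix κ κ (MonoidAlgebra ℤ Γ)} (h : Isometric A B) :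
    Isometric B A := by
  obtain ⟨P, Q, h1, h2, h3⟩ := h
  refine ⟨Q, P, h2, h1, ?_⟩
  have h4 : adj P * adj Q = 1 := by rw [← adj_mul, h2, adj_one]
  rw [← h3]
  calc Q * (P * A * adj P) * adj Q = (Q * P) * A * (adj P * adj Q) := by
        simp only [Matrix.mul_assoc]
    _ = A := by rw [h2, h4, Matrix.one_mul, Matrix.mul_one]

theorem Isometric.trans {A : Matrix ι ι (MonoidAlgebra ℤ Γ)} {B : Matrix κ κ (MonoidAlgebra ℤ Γ)} {C : Matrix μ μ (MonoidAlgebra ℤ Γ)}
    (h : Isometric A B) (h' : Isometric B C) : Isometric A C := by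
  obtain ⟨P, Q, h1, h2, h3⟩ := h
  obtain ⟨P', Q', h1', h2', h3'⟩ := h'
  refine ⟨P' * P, Q * Q', ?_, ?_, ?_⟩
  · calc P' * P * (Q * Q') = P' * (P * Q) * Q' := by simp only [Matrix.mul_assoc]
      _ = 1 := by rw [h1, Matrix.mul_one, h1']
  · calc Q * Q' * (P' * P) = Q * (Q' * P') * P := by simp only [Matrix.mul_assoc]
      _ = 1 := by rw [h2', Matrix.mul_one, h2]
  · rw [adj_mul, ← h3', ← h3]; simp only [Matrix.mul_assoc]

theorem Isometric.osum {A : Matrix ι ι (MonoidAlgebra ℤ Γ)} {B : Matrix κ κ (MonoidAlgebra ℤ Γ)} {A' : Matrix μ μ (MonoidAlgebra ℤ Γ)}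
    {B' : Matrix ν ν (MonoidAlgebra ℤ Γ)} (h : Isometric A A') (h' : Isometric B B') :
    Isometric (osum A B) (osum A' B') := by
  obtain ⟨P, Q, h1, h2, h3⟩ := h
  obtain ⟨P', Q', h1', h2', h3'⟩ := h'
  refine ⟨fromBlocks P 0 0 P', fromBlocks Q 0 0 Q', ?_, ?_, ?_⟩
  · rw [Matrix.fromBlocks_multiply]; simp [h1, h1']
  · rw [Matrix.fromBlocks_multiply]; simp [h2, h2']
  · unfold Pool.Agent.H750.osum
    rw [adj_fromBlocks, Matrix.fromBlocks_multiply, Matrix.fromBlocks_multiply]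
    simp [adj_zero, h3, h3']

theorem Isometric.submatrix (A : Matrix ι ι (MonoidAlgebra ℤ Γ)) (e : κ ≃ ι) : Isometric A (A.submatrix e e) := by
  refine ⟨(1 : Matrix ι ι (MonoidAlgebra ℤ Γ)).submatrix e id, (1 : Matrix ι ι (MonoidAlgebra ℤ Γ)).submatrix id e, ?_, ?_, ?_⟩
  · rw [← Matrix.submatrix_mul _ _ _ _ _ Function.bijective_id, Matrix.one_mul]
    exact Matrix.submatrix_one_equiv e
  · rw [Matrix.submatrix_mul_equiv, Matrix.one_mul, Matrix.submatrix_id_id]
  · have h1 : adj ((1 : Matrix ι ι (MonoidAlgebra ℤ Γ)).submatrix e id) = (1 : Matrix ι ι (MonoidAlgebra ℤ Γ)).submatrix id e := by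
      have h2 : adj (1 : Matrix ι ι (MonoidAlgebra ℤ Γ)) = 1 := adj_one
      ext1 i j
      have h3 := congrFun (congrFun h2 i) (e j)
      rw [adj_apply] at h3 ⊢
      exact h3
    rw [h1]
    have h4 : A = A.submatrix id id := rfl
    conv_lhs => rw [h4]
    rw [← Matrix.submatrix_mul _ _ _ _ _ Function.bijective_id,
      ← Matrix.submatrix_mul _ _ _ _ _ Function.bijective_id, Matrix.one_mul, Matrix.mul_one]

/-- splitting off a unit vector -/
theorem split (X : Matrix ι ι (MonoidAlgebra ℤ Γ)) (hX : adj X = X) (v : Matrix (Fin 1) ι (MonoidAlgebra ℤ Γ))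
    (hv : v * X * adj v = 0) :
    Isometric (osum X (1 : Matrix (Fin 1) (Fin 1) (MonoidAlgebra ℤ Γ)))
      (osum (X - X * adj v * (v * X)) (1 : Matrix (Fin 1) (Fin 1) (MonoidAlgebra ℤ Γ))) := by
  set c := X * adj v with hc
  have hc' : adj c = v * X := by rw [hc, adj_mul, adj_adj, hX]
  have h1 : Isometric (osum X (1 : Matrix (Fin 1) (Fin 1) (MonoidAlgebra ℤ Γ))) (fromBlocks X c (v * X) 1) := by
    refine ⟨fromBlocks 1 0 v 1, fromBlocks 1 0 (-v) 1, ?_, ?_, ?_⟩
    · rw [Matrix.fromBlocks_multiply]; simp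
    · rw [Matrix.fromBlocks_multiply]; simp
    · unfold Pool.Agent.H750.osum
      rw [adj_fromBlocks, Matrix.fromBlocks_multiply, Matrix.fromBlocks_multiply]
      simp [adj_one, adj_zero, hv, hc]
  have h2 : Isometric (fromBlocks X c (v * X) 1)
      (osum (X - c * (v * X)) (1 : Matrix (Fin 1) (Fin 1) (MonoidAlgebra ℤ Γ))) := by
    refine ⟨fromBlocks 1 (-c) 0 1, fromBlocks 1 c 0 1, ?_, ?_, ?_⟩
    · rw [Matrix.fromBlocks_multiply]; simp
    · rw [Matrix.fromBlocks_multiply]; simp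
    · unfold Pool.Agent.H750.osum
      rw [adj_fromBlocks, Matrix.fromBlocks_multiply, Matrix.fromBlocks_multiply]
      simp [adj_one, adj_zero, adj_neg, hc', sub_eq_add_neg]
  exact h1.trans h2

end iso

/-- symmetric matrices with even diagonal are even forms -/
theorem isEvenForm_of (B : Matrix ι ι (MonoidAlgebra ℤ Γ)) (hB : adj B = B)
    (h1 : ∀ i, ∀ s : Γ, s * s = 1 → Even ((B i i).coeff s)) : IsEvenForm B := by
  classical
  let _ : LinearOrder ι := IsWellOrder.linearOrder WellOrderingRel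
  have hs : ∀ i j, bar (B i j) = B j i := by
    intro i j
    conv_rhs => rw [← hB]
    rfl
  choose a ha using fun i => halve (B i i) (hs i i) (h1 i)
  refine ⟨Matrix.of fun i j => if i < j then B i j else if i = j then a i else 0, ?_⟩
  ext1 i j
  rw [Matrix.add_apply, adj_apply, Matrix.of_apply, Matrix.of_apply]
  rcases lt_trichotomy i j with h | h | h
  · rw [if_pos h, if_neg (not_lt.mpr h.le), if_neg (ne_of_gt h), bar_zero, add_zero]
  · subst h
    rw [if_neg (lt_irrefl _), if_pos rfl]; exact ha i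
  · rw [if_neg (not_lt.mpr h.le), if_neg (ne_of_gt h), if_pos h, zero_add, hs]

theorem visible_of_even (B : Matrix ι ι (MonoidAlgebra ℤ Γ)) (hB : IsEvenForm B) (i : ι) (s : Γ) (hss : s * s = 1) :
    Even ((B i i).coeff s) := by
  obtain ⟨ψ, rfl⟩ := hB
  have hs' : s⁻¹ = s := inv_eq_of_mul_eq_one_right hss
  rw [Matrix.add_apply, adj_apply, MonoidAlgebra.coeff_add, Finsupp.add_apply, coeff_bar, hs']
  exact ⟨_, rfl⟩

theorem adj_even (B : Matrix ι ι (MonoidAlgebra ℤ Γ)) (hB : IsEvenForm B) : adj B = B := by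
  obtain ⟨ψ, rfl⟩ := hB
  rw [adj_add, adj_adj, add_comm]

/-- visibility is invariant under base change -/
theorem visible_congr [Fintype ι] [DecidableEq ι] (A : Matrix ι ι (MonoidAlgebra ℤ Γ)) (hA : adj A = A)
    (hv : Visible A) (P : Matrix κ ι (MonoidAlgebra ℤ Γ)) : Visible (P * A * adj P) := by
  intro i s hs hss
  have hs' : s⁻¹ = s := inv_eq_of_mul_eq_one_right hss
  have h1 : (P * A * adj P) i i = ∑ k, ∑ l, P i k * A k l * bar (P i l) := by
    rw [Matrix.mul_apply, Finset.sum_comm]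
    refine Finset.sum_congr rfl fun l _ => ?_
    rw [Matrix.mul_apply, Finset.sum_mul]; rfl
  have h2 : ∀ r : ZMod 2, r + r = 0 := by decide
  rw [← ZMod.intCast_eq_zero_iff_even, h1]
  have h3 : (((∑ k, ∑ l, P i k * A k l * bar (P i l)).coeff s : ℤ) : ZMod 2) =
      ∑ k, ∑ l, (((P i k * A k l * bar (P i l)).coeff s : ℤ) : ZMod 2) := by
    rw [MonoidAlgebra.coeff_sum, Finsupp.finsetSum_apply, Int.cast_sum]
    refine Finset.sum_congr rfl fun k _ => ?_
    rw [MonoidAlgebra.coeff_sum, Finsupp.finsetSum_apply, Int.cast_sum]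
  rw [h3, sum_symm_two h2 (fun k l => (((P i k * A k l * bar (P i l)).coeff s : ℤ) : ZMod 2))]
  · refine Finset.sum_eq_zero fun k _ => ?_
    rw [ZMod.intCast_eq_zero_iff_even]
    refine conj_inv _ _ ?_ (hv k) s hs hss
    conv_rhs => rw [← hA]
    rfl
  · intro k l
    have h4 : P i l * A l k * bar (P i k) = bar (P i k * A k l * bar (P i l)) := by
      rw [bar_mul, bar_mul, bar_bar, mul_assoc]
      congr 2
      conv_lhs => rw [← hA]
      rfl
    rw [h4, coeff_bar, hs']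

end Pool.Agent.H750
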