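import Pool.Agent.H750.GaussSum

set_option autoImplicit false

/-! # One-dimensional Gauss sums with a linear term -/

namespace Pool.Agent.H750.GS

open Complex Finset Real

theorem shift_sum (f : ℤ → ℂ) (m : ℕ) (hf : ∀ k, f (k + m) = f k) (s : ℤ) :
    ∑ k ∈ range m, f (k + s) = ∑ k ∈ range m, f k := by
  have step : ∀ s : ℤ, ∑ k ∈ range m, f (k + (s + 1)) = ∑ k ∈ range m, f (k + s) := by
    intro s
    have h1 := Finset.sum_range_succ (fun k : ℕ => f (k + s)) m
    have h2 := Finset.sum_range_succ' (fun k : ℕ => f (k + s)) m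
    have h3 : f ((m : ℕ) + s) = f ((0 : ℕ) + s) := by
      rw [add_comm, hf]; simp
    have h4 : ∑ k ∈ range m, f (k + (s + 1)) = ∑ k ∈ range m, f ((k + 1 : ℕ) + s) :=
      Finset.sum_congr rfl fun k _ => by congr 1; push_cast; ring
    rw [h4]
    have h5 := h1.symm.trans h2
    rw [h3] at h5
    exact (add_right_cancel h5).symm
  induction s using Int.induction_on with
  | zero => simp
  | succ i ih => rw [step, ih]
  | pred i ih =>
    rw [← ih, ← step (-i - 1)]
    exact Finset.sum_congr rfl fun k _ => by congr 1; ring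

theorem mul_sum_period (f : ℤ → ℂ) (m : ℕ) (hf : ∀ k, f (k + m) = f k) (c : ℕ) :
    ∑ k ∈ range (m * c), f k = c * ∑ k ∈ range m, f k := by
  induction c with
  | zero => simp
  | succ c ih =>
    rw [Nat.mul_succ, Finset.sum_range_add, ih]
    have h : ∑ x ∈ range m, f ((m * c + x : ℕ) : ℤ) = ∑ k ∈ range m, f (k + (m * c : ℕ)) :=
      Finset.sum_congr rfl fun k _ => by congr 1; push_cast; ring
    rw [h, shift_sum f m hf]
    push_cast; ring

theorem sum_range_two_mul (f : ℕ → ℂ) (m : ℕ) :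
    ∑ k ∈ range (2 * m), f k = ∑ k ∈ range m, (f (2 * k) + f (2 * k + 1)) := by
  induction m with
  | zero => simp
  | succ m ih =>
    rw [Nat.mul_succ, Finset.sum_range_succ, Finset.sum_range_succ, ih, Finset.sum_range_succ]
    ring

theorem exp_odd (m : ℤ) (h : Odd m) : cexp (π * I * m) = -1 := by
  obtain ⟨k, rfl⟩ := h
  push_cast
  rw [show (π * I * (2 * k + 1) : ℂ) = π * I + k * (2 * π * I) by ring, Complex.exp_add,
    Complex.exp_int_mul_two_pi_mul_I, Complex.exp_pi_mul_I, mul_one]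

theorem exp_even (m : ℤ) (h : Even m) : cexp (π * I * m) = 1 := by
  obtain ⟨k, rfl⟩ := h
  push_cast
  rw [show (π * I * (k + k) : ℂ) = k * (2 * π * I) by ring, Complex.exp_int_mul_two_pi_mul_I]

theorem gauss_half (d : ℕ) (hd : 0 < d) (τ : ℤ) (hτ : Even (d + τ)) :
    ∑ k ∈ range d, cexp (π * I * (2 * k + τ) ^ 2 / (4 * d)) = (√d : ℝ) * cexp (π * I / 4) := by
  have hdc : (d : ℂ) ≠ 0 := by exact_mod_cast hd.ne'
  haveI : NeZero (4 * d) := ⟨by omega⟩
  have h0 := gauss_sum (4 * d) ⟨2 * d, by ring⟩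
  set h : ℤ → ℂ := fun j => cexp (π * I * (j : ℂ) ^ 2 / (4 * d)) with hh
  have h1 : ∑ a : Fin (4 * d), cexp (π * I * ((a : ℕ) : ℂ) ^ 2 / ((4 * d : ℕ) : ℂ)) =
      ∑ k ∈ range (4 * d), h k := by
    rw [Finset.sum_range]
    refine Finset.sum_congr rfl fun a _ => ?_
    simp only [hh]; push_cast; rfl
  rw [h1] at h0
  have hper2 : ∀ j, h (j + 2 * d) = h j * cexp (π * I * ((j + d : ℤ) : ℂ)) := by
    intro j
    simp only [hh]
    rw [← Complex.exp_add]
    congr 1
    push_cast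
    field_simp
    ring
  have hper4 : ∀ j : ℤ, h (j + (4 * d : ℕ)) = h j := by
    intro j
    have e : j + (4 * d : ℕ) = (j + 2 * d) + 2 * d := by push_cast; ring
    rw [e, hper2, hper2, mul_assoc, ← Complex.exp_add]
    have e2 : (π * I * ((j + d : ℤ) : ℂ) + π * I * ((j + 2 * d + d : ℤ) : ℂ) : ℂ) =
        π * I * ((2 * (j + 2 * d) : ℤ) : ℂ) := by push_cast; ring
    rw [e2, exp_even _ (even_two_mul _), mul_one]
  have h2 := shift_sum h (4 * d) hper4 τ
  have h3 : ∑ k ∈ range (4 * d), h (k + τ) =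
      ∑ k ∈ range (2 * d), (h (2 * k + τ) + h (2 * k + 1 + τ)) := by
    rw [show 4 * d = 2 * (2 * d) by ring, sum_range_two_mul]
    refine Finset.sum_congr rfl fun k _ => ?_
    push_cast; rfl
  have h4 : ∑ k ∈ range (2 * d), h (2 * k + 1 + τ) = 0 := by
    rw [show 2 * d = d + d by ring, Finset.sum_range_add, ← Finset.sum_add_distrib]
    refine Finset.sum_eq_zero fun k _ => ?_
    have e : (2 * ((d + k : ℕ) : ℤ) + 1 + τ) = (2 * k + 1 + τ) + 2 * d := by push_cast; ring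
    rw [e, hper2, exp_odd]
    · ring
    · obtain ⟨m, hm⟩ := hτ
      exact ⟨k + m, by linarith⟩
  have h5 : ∑ k ∈ range (2 * d), h (2 * k + τ) = 2 * ∑ k ∈ range d, h (2 * k + τ) := by
    rw [show 2 * d = d + d by ring, Finset.sum_range_add, two_mul]
    congr 1
    refine Finset.sum_congr rfl fun k _ => ?_
    have e : (2 * ((d + k : ℕ) : ℤ) + τ) = (2 * k + τ) + 2 * d := by push_cast; ring
    rw [e, hper2, exp_even, mul_one]
    obtain ⟨m, hm⟩ := hτ
    exact ⟨k + m, by linarith⟩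
  rw [Finset.sum_add_distrib, h4, add_zero, h5, h2, h0] at h3
  have h6 : √((4 * d : ℕ) : ℝ) = 2 * √d := by
    push_cast
    rw [Real.sqrt_mul (by norm_num), show (4 : ℝ) = 2 ^ 2 by norm_num, Real.sqrt_sq (by norm_num)]
  rw [h6] at h3
  have h7 : ∑ k ∈ range d, cexp (π * I * (2 * k + τ) ^ 2 / (4 * d)) =
      ∑ k ∈ range d, h (2 * k + τ) := by
    refine Finset.sum_congr rfl fun k _ => ?_
    simp only [hh]; push_cast; rfl
  rw [h7]
  push_cast at h3
  linear_combination -(1 / 2) * h3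

theorem one_pos (d : ℕ) (hd : 0 < d) (τ : ℤ) (hτ : Even (d + τ)) (D : ℕ) (hD : 0 < D)
    (hdD : d ∣ D) : ∃ c : ℝ, 0 < c ∧ ∑ k ∈ range D, cexp (π * I * ((k : ℂ) ^ 2 + k * τ) / d) =
      c * (cexp (-(π * I * τ ^ 2 / (4 * d))) * cexp (π * I / 4)) := by
  have hdc : (d : ℂ) ≠ 0 := by exact_mod_cast hd.ne'
  obtain ⟨e, rfl⟩ := hdD
  have he : 0 < e := Nat.pos_of_mul_pos_left hD |> fun h => by
    rcases Nat.eq_zero_or_pos e with h0 | h0
    · subst h0; simp at hD
    · exact h0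
  refine ⟨e * √d, by positivity, ?_⟩
  set f : ℤ → ℂ := fun k => cexp (π * I * ((k : ℂ) ^ 2 + k * τ) / d) with hf
  have hper : ∀ k, f (k + d) = f k := by
    intro k
    simp only [hf]
    have e1 : (π * I * (((k + d : ℤ) : ℂ) ^ 2 + ((k + d : ℤ) : ℂ) * τ) / d : ℂ) =
        π * I * ((k : ℂ) ^ 2 + k * τ) / d + π * I * ((2 * k + (d + τ) : ℤ) : ℂ) := by
      push_cast
      field_simp
      ring
    rw [e1, Complex.exp_add, exp_even, mul_one]
    exact (even_two_mul k).add hτ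
  have h1 := mul_sum_period f d hper e
  have h2 : ∑ k ∈ range (d * e), cexp (π * I * ((k : ℂ) ^ 2 + k * τ) / d) =
      ∑ k ∈ range (d * e), f k := by
    refine Finset.sum_congr rfl fun k _ => ?_
    simp only [hf]; push_cast; rfl
  have h3 : ∑ k ∈ range d, f k = cexp (-(π * I * τ ^ 2 / (4 * d))) *
      ∑ k ∈ range d, cexp (π * I * (2 * k + τ) ^ 2 / (4 * d)) := by
    rw [Finset.mul_sum]
    refine Finset.sum_congr rfl fun k _ => ?_
    simp only [hf]
    rw [← Complex.exp_add]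
    congr 1
    push_cast
    field_simp
    ring
  rw [h2, h1, h3, gauss_half d hd τ hτ]
  push_cast
  ring

/-- One-dimensional Gauss sums: the argument. -/
theorem one (d : ℤ) (hd : d ≠ 0) (τ : ℤ) (hτ : Even (d + τ)) (D : ℕ) (hD : 0 < D)
    (hdD : d ∣ D) : ∃ c : ℝ, 0 < c ∧ ∑ k ∈ range D, cexp (π * I * ((k : ℂ) ^ 2 + k * τ) / d) =
      c * cexp (π * I * ((d.sign : ℂ) - τ ^ 2 / d) / 4) := by
  rcases lt_or_gt_of_ne hd with h | h
  · obtain ⟨m, rfl⟩ : ∃ m : ℕ, d = -m := ⟨d.natAbs, by omega⟩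
    have hm : 0 < m := by omega
    have hmc : (m : ℂ) ≠ 0 := by exact_mod_cast hm.ne'
    have hτ' : Even ((m : ℤ) + τ) := by
      obtain ⟨k, hk⟩ := hτ
      exact ⟨k + m, by linarith⟩
    obtain ⟨c, hc, h1⟩ := one_pos m hm τ hτ' D hD (by
      rw [neg_dvd] at hdD; exact_mod_cast hdD)
    refine ⟨c, hc, ?_⟩
    have h2 := congrArg (starRingEnd ℂ) h1
    rw [map_sum, map_mul, map_mul, conj_ofReal, ← Complex.exp_conj, ← Complex.exp_conj] at h2
    have hs : ((-(m : ℤ)).sign : ℂ) = -1 := by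
      rw [Int.sign_eq_neg_one_of_neg (by omega)]; simp
    rw [hs]
    have h3 : ∑ k ∈ range D, cexp (π * I * ((k : ℂ) ^ 2 + k * τ) / ((-(m : ℤ) : ℤ) : ℂ)) =
        ∑ k ∈ range D, (starRingEnd ℂ) (cexp (π * I * ((k : ℂ) ^ 2 + k * τ) / m)) := by
      refine Finset.sum_congr rfl fun k _ => ?_
      rw [← Complex.exp_conj]
      congr 1
      simp only [map_div₀, map_mul, map_add, map_pow, conj_ofReal, conj_I, map_natCast, map_intCast]
      push_cast
      field_simp
    rw [h3, h2, ← Complex.exp_add]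
    congr 2
    simp only [map_div₀, map_mul, map_neg, map_pow, conj_ofReal, conj_I, map_natCast, map_intCast,
      map_ofNat]
    push_cast
    field_simp
    ring
  · obtain ⟨m, rfl⟩ : ∃ m : ℕ, d = m := ⟨d.natAbs, by omega⟩
    have hm : 0 < m := by omega
    have hmc : (m : ℂ) ≠ 0 := by exact_mod_cast hm.ne'
    obtain ⟨c, hc, h1⟩ := one_pos m hm τ hτ D hD (by exact_mod_cast hdD)
    refine ⟨c, hc, ?_⟩
    have hs : (((m : ℤ)).sign : ℂ) = 1 := by
      rw [Int.sign_eq_one_of_pos (by omega)]; simp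
    rw [hs]
    push_cast
    rw [h1, ← Complex.exp_add]
    congr 2
    field_simp
    ring

end Pool.Agent.H750.GS
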