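import Mathlib

set_option autoImplicit false

/-! # The quadratic Gauss sum `∑_{j < N} exp (π i j² / N)` for even `N` -/

namespace Pool.Agent.H750.GS

open Complex Filter Topology HurwitzZeta Real

theorem theta_hasSum {τ : ℂ} (hτ : 0 < τ.im) :
    HasSum (fun n : ℤ => cexp (π * I * (n : ℂ) ^ 2 * τ)) (jacobiTheta τ) := by
  have h := hasSum_jacobiTheta₂_term 0 hτ
  simp_rw [jacobiTheta₂_term, mul_zero, zero_add, ← jacobiTheta_eq_jacobiTheta₂] at h
  exact h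

/-- splitting of the theta series into residue classes -/
theorem theta_split (N : ℕ) [NeZero N] (hN : Even N) (ε : ℝ) (hε : 0 < ε) :
    jacobiTheta (1 / (N : ℂ) + ε * I) =
      ∑ a : Fin N, cexp (π * I * (a : ℕ) ^ 2 / N) *
        ((evenKernel (((a : ℕ) / (N : ℝ) : ℝ) : UnitAddCircle) ((N : ℝ) ^ 2 * ε) : ℝ) : ℂ) := by
  have hN0 : (N : ℂ) ≠ 0 := by exact_mod_cast NeZero.ne N
  have hNr : (0 : ℝ) < N := by exact_mod_cast Nat.pos_of_ne_zero (NeZero.ne N)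
  have him : 0 < (1 / (N : ℂ) + ε * I).im := by
    have : (1 / (N : ℂ)).im = 0 := by
      rw [show (1 / (N : ℂ)) = ((1 / (N : ℝ) : ℝ) : ℂ) by push_cast; rfl, ofReal_im]
    rw [add_im, this]; simpa using hε
  have h1 := theta_hasSum him
  have h2 := ((Equiv.prodComm (Fin N) ℤ).trans (Int.divModEquiv N).symm).hasSum_iff.mpr h1
  have h3 : ∀ a : Fin N, HasSum (fun k : ℤ => ((fun n : ℤ => cexp (π * I * (n : ℂ) ^ 2 *
      (1 / (N : ℂ) + ε * I))) ∘ ((Equiv.prodComm (Fin N) ℤ).trans (Int.divModEquiv N).symm)) (a, k))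
      (cexp (π * I * (a : ℕ) ^ 2 / N) *
        ((evenKernel (((a : ℕ) / (N : ℝ) : ℝ) : UnitAddCircle) ((N : ℝ) ^ 2 * ε) : ℝ) : ℂ)) := by
    intro a
    have h4 := hasSum_int_evenKernel ((a : ℕ) / (N : ℝ)) (t := (N : ℝ) ^ 2 * ε) (by positivity)
    have h5 := (hasSum_ofReal.mpr h4).mul_left (cexp (π * I * (a : ℕ) ^ 2 / N))
    refine h5.congr_fun ?_
    intro k
    obtain ⟨M, hM⟩ := hN
    have e1 : (Int.divModEquiv N).symm (k, a) = (N : ℤ) * k + (a : ℕ) := by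
      simp [Int.divModEquiv_symm_apply]
      ring
    simp only [Function.comp_apply, Equiv.trans_apply, Equiv.prodComm_apply, Prod.swap_prod_mk, e1]
    rw [ofReal_exp, ← Complex.exp_add]
    rw [Complex.exp_eq_exp_iff_exists_int]
    refine ⟨(a : ℕ) * k + M * k ^ 2, ?_⟩
    push_cast
    field_simp
    rw [show (N : ℂ) = 2 * M by rw [hM]; push_cast; ring]
    ring_nf
    rw [show (I : ℂ) ^ 2 = -1 from I_sq]
    ring
  have h6 := h2.prod_fiberwise h3
  exact (h6.unique (hasSum_fintype _))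


theorem cosKernel_tendsto (a : UnitAddCircle) : Tendsto (cosKernel a) atTop (𝓝 1) := by
  obtain ⟨p, hp, h⟩ := isBigO_atTop_cosKernel_sub a
  have h1 : Tendsto (fun x : ℝ => rexp (-p * x)) atTop (𝓝 0) := by
    refine Real.tendsto_exp_atBot.comp ?_
    exact tendsto_id.const_mul_atTop_of_neg (by linarith)
  have h2 := h.trans_tendsto h1
  have h3 := h2.add_const 1
  simpa using h3

/-- `√ε θ(1/N + iε) → (1/N) ∑ exp (π i a² / N)` -/
theorem theta_left (N : ℕ) [NeZero N] (hN : Even N) :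
    Tendsto (fun ε : ℝ => ((√ε : ℝ) : ℂ) * jacobiTheta (1 / (N : ℂ) + ε * I)) (𝓝[>] 0)
      (𝓝 ((∑ a : Fin N, cexp (π * I * (a : ℕ) ^ 2 / N)) / N)) := by
  have hNr : (0 : ℝ) < N := by exact_mod_cast Nat.pos_of_ne_zero (NeZero.ne N)
  have h1 : ∀ a : Fin N, Tendsto (fun ε : ℝ => ((√ε * evenKernel (((a : ℕ) / (N : ℝ) : ℝ) :
      UnitAddCircle) ((N : ℝ) ^ 2 * ε) : ℝ) : ℂ)) (𝓝[>] 0) (𝓝 (((1 / (N : ℝ)) : ℝ) : ℂ)) := by
    intro a
    refine (continuous_ofReal.tendsto _).comp ?_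
    have h2 : Tendsto (fun ε : ℝ => 1 / ((N : ℝ) ^ 2 * ε)) (𝓝[>] 0) atTop := by
      have h3 : Tendsto (fun ε : ℝ => (1 / (N : ℝ) ^ 2) * ε⁻¹) (𝓝[>] 0) atTop :=
        tendsto_inv_nhdsGT_zero.const_mul_atTop (by positivity)
      refine h3.congr fun ε => ?_
      rw [one_div, one_div, mul_inv]
    have h4 := ((cosKernel_tendsto (((a : ℕ) / (N : ℝ) : ℝ) : UnitAddCircle)).comp h2).const_mul
      (1 / (N : ℝ))
    rw [mul_one] at h4
    refine h4.congr' ?_
    filter_upwards [self_mem_nhdsWithin] with ε hε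
    have hε' : 0 < ε := hε
    rw [evenKernel_functional_equation, ← Real.sqrt_eq_rpow, Real.sqrt_mul (by positivity),
      Real.sqrt_sq hNr.le, Function.comp_apply]
    have h5 : √ε ≠ 0 := (Real.sqrt_pos.mpr hε').ne'
    field_simp
  have h2 : Tendsto (fun ε : ℝ => ∑ a : Fin N, cexp (π * I * (a : ℕ) ^ 2 / N) *
      ((√ε * evenKernel (((a : ℕ) / (N : ℝ) : ℝ) :
      UnitAddCircle) ((N : ℝ) ^ 2 * ε) : ℝ) : ℂ)) (𝓝[>] 0)
      (𝓝 (∑ a : Fin N, cexp (π * I * (a : ℕ) ^ 2 / N) * (((1 / (N : ℝ)) : ℝ) : ℂ))) :=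
    tendsto_finsetSum _ fun a _ => (h1 a).const_mul _
  have e : (∑ a : Fin N, cexp (π * I * (a : ℕ) ^ 2 / N) * (((1 / (N : ℝ)) : ℝ) : ℂ)) =
      (∑ a : Fin N, cexp (π * I * (a : ℕ) ^ 2 / N)) / N := by
    rw [← Finset.sum_mul]; push_cast; ring
  rw [← e]
  refine h2.congr' ?_
  filter_upwards [self_mem_nhdsWithin] with ε hε
  rw [theta_split N hN ε hε, Finset.mul_sum]
  refine Finset.sum_congr rfl fun a _ => ?_
  push_cast
  ring

theorem theta_add_even (τ : ℂ) (M : ℕ) : jacobiTheta (2 * M + τ) = jacobiTheta τ := by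
  induction M with
  | zero => simp
  | succ M ih =>
    rw [← ih, ← jacobiTheta_two_add (2 * M + τ)]
    congr 1
    push_cast; ring

theorem sqrt_mul_cpow {r : ℝ} (hr : 0 < r) {x : ℂ} (hx : x ≠ 0) :
    ((r : ℂ) * x) ^ (1 / 2 : ℂ) = ((√r : ℝ) : ℂ) * x ^ (1 / 2 : ℂ) := by
  have hr' : (r : ℂ) ≠ 0 := by exact_mod_cast hr.ne'
  rw [cpow_def_of_ne_zero (mul_ne_zero hr' hx), log_ofReal_mul hr hx, add_mul, Complex.exp_add,
    ← cpow_def_of_ne_zero hx, Real.sqrt_eq_rpow, ofReal_cpow hr.le, cpow_def_of_ne_zero hr',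
    ofReal_log hr.le]
  push_cast
  rfl

/-- the Gauss sum -/
theorem gauss_sum (N : ℕ) [NeZero N] (hN : Even N) :
    (∑ a : Fin N, cexp (π * I * (a : ℕ) ^ 2 / N)) = (√N : ℝ) * cexp (π * I / 4) := by
  have hNr : (0 : ℝ) < N := by exact_mod_cast Nat.pos_of_ne_zero (NeZero.ne N)
  have hNc : (N : ℂ) ≠ 0 := by exact_mod_cast NeZero.ne N
  have hL := theta_left N hN
  set G := ∑ a : Fin N, cexp (π * I * (a : ℕ) ^ 2 / N) with hG
  -- the modular transformations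
  have hS : ∀ τ : ℂ, 0 < τ.im → jacobiTheta (-τ)⁻¹ = (-I * τ) ^ (1 / 2 : ℂ) * jacobiTheta τ := by
    intro τ hτ
    have h := jacobiTheta_S_smul ⟨τ, hτ⟩
    rw [UpperHalfPlane.modular_S_smul] at h
    simpa using h
  have key : ∀ᶠ ε : ℝ in 𝓝[>] 0, jacobiTheta (I / (N ^ 2 * ε) - 1 / N) =
      (1 / (1 + I * N * ε)) ^ (1 / 2 : ℂ) * N * (-I * (1 / (N : ℂ) + ε * I)) ^ (1 / 2 : ℂ) *
        (((√ε : ℝ) : ℂ) * jacobiTheta (1 / (N : ℂ) + ε * I)) := by
    filter_upwards [self_mem_nhdsWithin] with ε hε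
    have hε' : 0 < ε := hε
    have hεc : (ε : ℂ) ≠ 0 := by exact_mod_cast hε'.ne'
    have h1 : (1 + I * N * ε : ℂ) ≠ 0 := by
      intro h
      have := congrArg Complex.re h
      simp at this
    have hτ : 0 < (1 / (N : ℂ) + ε * I).im := by
      have : (1 / (N : ℂ)).im = 0 := by
        rw [show (1 / (N : ℂ)) = ((1 / (N : ℝ) : ℝ) : ℂ) by push_cast; rfl, ofReal_im]
      rw [add_im, this]; simpa using hε'
    have h2 := hS _ hτ
    obtain ⟨M, hM⟩ := hN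
    have hM' : (N : ℂ) = 2 * M := by rw [hM]; push_cast; ring
    have hd : (1 / (N : ℂ) + ε * I) ≠ 0 := by
      intro h0; rw [h0] at hτ; simp at hτ
    have h3 : (-(1 / (N : ℂ) + ε * I))⁻¹ + 2 * M = I * (N ^ 2 * ε / (1 + I * N * ε)) := by
      rw [← hM']
      have h4 : -(1 / (N : ℂ) + ε * I) ≠ 0 := neg_ne_zero.mpr hd
      have h5 : -(1 / (N : ℂ) + ε * I) = -((1 + I * N * ε) / N) := by field_simp
      rw [h5]
      field_simp
      ring
    have h6 : 0 < (I * (N ^ 2 * ε / (1 + I * N * ε)) : ℂ).im := by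
      rw [mul_comm, mul_I_im]
      have : ((N : ℂ) ^ 2 * ε / (1 + I * N * ε)) = (((N : ℝ) ^ 2 * ε : ℝ) : ℂ) * (1 + I * N * ε)⁻¹ := by
        push_cast; rw [div_eq_mul_inv]
      rw [this, re_ofReal_mul, Complex.inv_re]
      have h7 : (1 + I * N * ε : ℂ).re = 1 := by simp
      rw [h7]
      have h8 : 0 < normSq (1 + I * N * ε) := normSq_pos.mpr h1
      positivity
    have h7 := hS _ h6
    have h8 : (-(I * (N ^ 2 * ε / (1 + I * N * ε)) : ℂ))⁻¹ = I / (N ^ 2 * ε) - 1 / N := by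
      field_simp
      ring_nf
      rw [show (I : ℂ) ^ 2 = -1 from I_sq]
      ring
    rw [h8] at h7
    have h9 : jacobiTheta (I * (N ^ 2 * ε / (1 + I * N * ε))) =
        (-I * (1 / (N : ℂ) + ε * I)) ^ (1 / 2 : ℂ) * jacobiTheta (1 / (N : ℂ) + ε * I) := by
      rw [← h2, ← h3, add_comm, theta_add_even]
    rw [h9] at h7
    rw [h7]
    have h10 : (-I * (I * (N ^ 2 * ε / (1 + I * N * ε)))) ^ (1 / 2 : ℂ) =
        (1 / (1 + I * N * ε)) ^ (1 / 2 : ℂ) * N * ((√ε : ℝ) : ℂ) := by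
      have e1 : (-I * (I * (N ^ 2 * ε / (1 + I * N * ε)))) =
          (((N : ℝ) ^ 2 * ε : ℝ) : ℂ) * (1 / (1 + I * N * ε)) := by
        push_cast
        rw [← mul_assoc, neg_mul, I_mul_I]
        field_simp
      rw [e1, sqrt_mul_cpow (by positivity) (by simpa using h1), Real.sqrt_mul (by positivity),
        Real.sqrt_sq hNr.le]
      push_cast
      ring
    rw [h10]
    ring
  -- limits
  have l1 : Tendsto (fun ε : ℝ => jacobiTheta (I / (N ^ 2 * ε) - 1 / N)) (𝓝[>] 0) (𝓝 1) := by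
    have h1 : Tendsto (fun ε : ℝ => (I / (N ^ 2 * ε) - 1 / N : ℂ)) (𝓝[>] 0) (comap im atTop) := by
      rw [tendsto_comap_iff]
      have h3 : Tendsto (fun ε : ℝ => (1 / (N : ℝ) ^ 2) * ε⁻¹) (𝓝[>] 0) atTop :=
        tendsto_inv_nhdsGT_zero.const_mul_atTop (by positivity)
      refine h3.congr fun ε => ?_
      have e1 : (I / (N ^ 2 * ε) - 1 / N : ℂ) = ((1 / (N ^ 2 * ε) : ℝ) : ℂ) * I -
          ((1 / (N : ℝ) : ℝ) : ℂ) := by
        push_cast; ring
      rw [Function.comp_apply, e1, sub_im, ofReal_im, mul_I_im, ofReal_re]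
      rw [one_div, one_div, mul_inv, sub_zero]
    have h2 := isBigO_at_im_infty_jacobiTheta_sub_one.trans_tendsto (by
      refine Real.tendsto_exp_atBot.comp ?_
      exact (tendsto_comap (f := im) (x := atTop)).const_mul_atTop_of_neg
        (by linarith [Real.pi_pos] : -π < 0))
    have h4 := (h2.add_const 1).comp h1
    simpa [Function.comp_def] using h4
  have l2 : Tendsto (fun ε : ℝ => ((1 / (1 + I * N * ε)) ^ (1 / 2 : ℂ) * N *
      (-I * (1 / (N : ℂ) + ε * I)) ^ (1 / 2 : ℂ) : ℂ)) (𝓝[>] 0)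
      (𝓝 ((1 / (1 + I * N * (0 : ℝ))) ^ (1 / 2 : ℂ) * N *
      (-I * (1 / (N : ℂ) + (0 : ℝ) * I)) ^ (1 / 2 : ℂ))) := by
    have hc : ContinuousAt (fun ε : ℝ => ((1 / (1 + I * N * ε)) ^ (1 / 2 : ℂ) * N *
        (-I * (1 / (N : ℂ) + ε * I)) ^ (1 / 2 : ℂ) : ℂ)) 0 := by
      refine ContinuousAt.mul (ContinuousAt.mul (ContinuousAt.cpow ?_ continuousAt_const ?_)
        continuousAt_const) (ContinuousAt.cpow ?_ continuousAt_const ?_)
      · refine ContinuousAt.div continuousAt_const (by fun_prop) (by simp)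
      · simp [Complex.one_mem_slitPlane]
      · fun_prop
      · rw [Complex.mem_slitPlane_iff]
        right
        have e1 : (-I * (1 / (N : ℂ) + (0 : ℝ) * I)) = ((-(1 / (N : ℝ)) : ℝ) : ℂ) * I := by
          push_cast; ring
        rw [e1, mul_I_im, ofReal_re]
        have : (0 : ℝ) < 1 / N := by positivity
        linarith
    exact hc.tendsto.mono_left nhdsWithin_le_nhds
  have l3 := l2.mul hL
  have l4 := tendsto_nhds_unique (l1.congr' key) l3
  have e1 : (-I * (1 / (N : ℂ) + (0 : ℝ) * I)) = ((1 / (N : ℝ) : ℝ) : ℂ) * (-I) := by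
    push_cast; ring
  have e2 : (-I : ℂ) ^ (1 / 2 : ℂ) = cexp (-(π * I / 4)) := by
    rw [cpow_def_of_ne_zero (by simp), Complex.log_neg_I]
    congr 1; ring
  rw [e1, sqrt_mul_cpow (by positivity) (by simp), e2, Real.sqrt_div zero_le_one, Real.sqrt_one]
    at l4
  have e3 : cexp (-(π * I / 4)) * cexp (π * I / 4) = 1 := by
    rw [← Complex.exp_add]; simp
  have h5 : ((√(N : ℝ) : ℝ) : ℂ) ≠ 0 := by
    exact_mod_cast (Real.sqrt_pos.mpr hNr).ne'
  simp at l4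
  have l5 : cexp (-(π * I / 4)) * G = (√N : ℝ) := by
    field_simp at l4
    linear_combination -l4
  calc G = (cexp (-(π * I / 4)) * cexp (π * I / 4)) * G := by rw [e3, one_mul]
    _ = (cexp (-(π * I / 4)) * G) * cexp (π * I / 4) := by ring
    _ = _ := by rw [l5]

end Pool.Agent.H750.GS
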