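import Pool.Agent.H750.DetLemma
import Pool.Graph.R_seed8.R791.Bar

set_option autoImplicit false

/-! # Symmetric elements of the integral group ring -/

namespace Pool.Agent.H750

open Matrix Pool.Agent.R791

variable {Γ : Type*} [Group Γ]

/-- The augmentation of the group ring. -/
noncomputable def aug : MonoidAlgebra ℤ Γ →ₐ[ℤ] ℤ := MonoidAlgebra.lift ℤ ℤ Γ (1 : Γ →* ℤ)

/-- The sign character of a homomorphism to the group of order two. -/
def sgn (f : Γ →* Multiplicative (ZMod 2)) : Γ →* ℤ where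
  toFun g := if f g = 1 then 1 else -1
  map_one' := by simp
  map_mul' g h := by
    have key : ∀ a b : Multiplicative (ZMod 2),
        (if a * b = 1 then (1 : ℤ) else -1) = (if a = 1 then 1 else -1) * (if b = 1 then 1 else -1) := by
      decide
    rw [map_mul]; exact key _ _

/-- The augmentation twisted by a sign character. -/
noncomputable def augf (f : Γ →* Multiplicative (ZMod 2)) : MonoidAlgebra ℤ Γ →ₐ[ℤ] ℤ :=
  MonoidAlgebra.lift ℤ ℤ Γ (sgn f)

@[simp] theorem aug_single (g : Γ) (r : ℤ) : aug (MonoidAlgebra.single g r) = r := by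
  unfold aug; simp

theorem augf_single (f : Γ →* Multiplicative (ZMod 2)) (g : Γ) (r : ℤ) :
    augf f (MonoidAlgebra.single g r) = r * (if f g = 1 then 1 else -1) := by
  unfold augf sgn; simp

theorem aug_bar (x : MonoidAlgebra ℤ Γ) : aug (bar x) = aug x := by
  induction x using MonoidAlgebra.induction_linear with
  | zero => simp
  | add a b ha hb => rw [bar_add, map_add, map_add, ha, hb]
  | single g r => rw [bar_single, aug_single, aug_single]

theorem augf_bar (f : Γ →* Multiplicative (ZMod 2)) (x : MonoidAlgebra ℤ Γ) :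
    augf f (bar x) = augf f x := by
  induction x using MonoidAlgebra.induction_linear with
  | zero => simp
  | add a b ha hb => rw [bar_add, map_add, map_add, ha, hb]
  | single g r => rw [bar_single, augf_single, augf_single, map_inv]; simp

theorem bar_neg' (x : MonoidAlgebra ℤ Γ) : bar (-x) = -bar x := by
  have h := bar_add x (-x)
  rw [add_neg_cancel, bar_zero] at h
  exact (neg_eq_of_add_eq_zero_right h.symm).symm

theorem bar_zsmul (n : ℤ) (x : MonoidAlgebra ℤ Γ) : bar (n • x) = n • bar x := by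
  ext g
  rw [coeff_bar, MonoidAlgebra.coeff_smul, MonoidAlgebra.coeff_smul, Finsupp.smul_apply,
    Finsupp.smul_apply, coeff_bar]

theorem bar_intCast (n : ℤ) : bar (n : MonoidAlgebra ℤ Γ) = n := by
  have h := bar_zsmul n (1 : MonoidAlgebra ℤ Γ)
  rw [bar_one] at h
  simpa using h

theorem aug_intCast (n : ℤ) : aug (n : MonoidAlgebra ℤ Γ) = n := by simp

theorem norm_one (x : MonoidAlgebra ℤ Γ) : Even ((x * bar x).coeff 1 + aug x) := by
  induction x using MonoidAlgebra.induction_linear with
  | zero => simp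
  | add a b ha hb =>
    have h : (a + b) * bar (a + b) = a * bar a + b * bar b + (a * bar b + bar (a * bar b)) := by
      rw [bar_add, bar_mul, bar_bar]
      noncomm_ring
    rw [h, map_add]
    simp only [MonoidAlgebra.coeff_add, Finsupp.add_apply, coeff_bar, inv_one]
    have h2 := (ha.add hb).add (even_two_mul ((a * bar b).coeff 1))
    refine (congrArg Even ?_).mpr h2
    ring
  | single g r =>
    rw [bar_single, MonoidAlgebra.single_mul_single, mul_inv_cancel, aug_single]
    simp only [MonoidAlgebra.coeff_single, Finsupp.single_eq_same]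
    have := Int.even_mul_succ_self r
    convert this using 1
    ring

theorem norm_inv (x : MonoidAlgebra ℤ Γ) (s : Γ) (hs : s ≠ 1) (hss : s * s = 1) :
    Even ((x * bar x).coeff s) := by
  have hs' : s⁻¹ = s := inv_eq_of_mul_eq_one_right hss
  induction x using MonoidAlgebra.induction_linear with
  | zero => simp
  | add a b ha hb =>
    have h : (a + b) * bar (a + b) = a * bar a + b * bar b + (a * bar b + bar (a * bar b)) := by
      rw [bar_add, bar_mul, bar_bar]
      noncomm_ring
    rw [h]
    simp only [MonoidAlgebra.coeff_add, Finsupp.add_apply, coeff_bar, hs']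
    have h2 := (ha.add hb).add (even_two_mul ((a * bar b).coeff s))
    refine (congrArg Even ?_).mpr h2
    ring
  | single g r =>
    rw [bar_single, MonoidAlgebra.single_mul_single, mul_inv_cancel]
    simp only [MonoidAlgebra.coeff_single]
    rw [Finsupp.single_eq_of_ne hs]
    exact Even.zero

open Classical in
/-- symmetric elements with even coefficients at the elements of order at most two -/
theorem halve (c : MonoidAlgebra ℤ Γ) (hc : bar c = c) (he : ∀ s : Γ, s * s = 1 → Even (c.coeff s)) :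
    ∃ a, c = a + bar a := by
  let _ : LinearOrder Γ := IsWellOrder.linearOrder WellOrderingRel
  set a : MonoidAlgebra ℤ Γ := MonoidAlgebra.ofCoeff (Finsupp.onFinset c.coeff.support
    (fun g => if g < g⁻¹ then c.coeff g else if g = g⁻¹ then c.coeff g / 2 else 0) (by
      intro g hg
      rw [Finsupp.mem_support_iff]
      intro h0
      apply hg
      simp [h0])) with ha
  have hag : ∀ g, a.coeff g = if g < g⁻¹ then c.coeff g else if g = g⁻¹ then c.coeff g / 2 else 0 := by
    intro g; rw [ha]; rfl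
  refine ⟨a, ?_⟩
  ext g
  have hcg : c.coeff g⁻¹ = c.coeff g := by
    rw [← coeff_bar, hc]
  rw [MonoidAlgebra.coeff_add, Finsupp.add_apply, coeff_bar, hag, hag, inv_inv, hcg]
  rcases lt_trichotomy g g⁻¹ with h | h | h
  · rw [if_pos h, if_neg (not_lt.mpr h.le), if_neg (ne_of_gt h), add_zero]
  · rw [if_neg (by rw [← h]; exact lt_irrefl _), if_pos h,
      if_neg (by rw [← h]; exact lt_irrefl _), if_pos h.symm]
    have h1 : g * g = 1 := by
      nth_rewrite 1 [h]; exact inv_mul_cancel g
    obtain ⟨k, hk⟩ := he g h1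
    rw [hk]; omega
  · rw [if_neg (not_lt.mpr h.le), if_neg (ne_of_gt h), if_pos h, zero_add]

open Classical in
/-- skew-symmetric elements -/
theorem halve_skew (c : MonoidAlgebra ℤ Γ) (hc : bar c = -c) : ∃ a, c = a - bar a := by
  let _ : LinearOrder Γ := IsWellOrder.linearOrder WellOrderingRel
  set a : MonoidAlgebra ℤ Γ := MonoidAlgebra.ofCoeff (Finsupp.onFinset c.coeff.support
    (fun g => if g < g⁻¹ then c.coeff g else 0) (by
      intro g hg
      rw [Finsupp.mem_support_iff]
      intro h0
      apply hg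
      simp [h0])) with ha
  have hag : ∀ g, a.coeff g = if g < g⁻¹ then c.coeff g else 0 := by
    intro g; rw [ha]; rfl
  refine ⟨a, ?_⟩
  ext g
  have hcg : c.coeff g⁻¹ = -c.coeff g := by
    rw [← coeff_bar, hc, MonoidAlgebra.coeff_neg]; rfl
  rw [MonoidAlgebra.coeff_sub, Finsupp.sub_apply, coeff_bar, hag, hag, inv_inv, hcg]
  rcases lt_trichotomy g g⁻¹ with h | h | h
  · rw [if_pos h, if_neg (not_lt.mpr h.le), sub_zero]
  · rw [if_neg (by rw [← h]; exact lt_irrefl _), if_neg (by rw [← h]; exact lt_irrefl _)]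
    rw [← h] at hcg
    omega
  · rw [if_neg (not_lt.mpr h.le), if_pos h]; ring

theorem intCast_eq_single (n : ℤ) : (n : MonoidAlgebra ℤ Γ) = MonoidAlgebra.single 1 n := by
  rw [← zsmul_one n, MonoidAlgebra.one_def, MonoidAlgebra.smul_single, smul_eq_mul, mul_one]

theorem coeff_intCast_one (n : ℤ) : ((n : MonoidAlgebra ℤ Γ)).coeff 1 = n := by
  rw [intCast_eq_single, MonoidAlgebra.coeff_single, Finsupp.single_eq_same]

theorem coeff_intCast_ne (n : ℤ) (s : Γ) (hs : s ≠ 1) : ((n : MonoidAlgebra ℤ Γ)).coeff s = 0 := by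
  rw [intCast_eq_single, MonoidAlgebra.coeff_single, Finsupp.single_eq_of_ne hs]

theorem sym_decomp (c : MonoidAlgebra ℤ Γ) (hc : bar c = c)
    (he : ∀ s : Γ, s ≠ 1 → s * s = 1 → Even (c.coeff s)) :
    ∃ (a : MonoidAlgebra ℤ Γ) (m : ℤ), c = a + bar a + (m : MonoidAlgebra ℤ Γ) := by
  obtain ⟨a, ha⟩ := halve (c - ((c.coeff 1 : ℤ) : MonoidAlgebra ℤ Γ)) (by
      rw [sub_eq_add_neg, bar_add, bar_neg', bar_intCast, hc]) (by
      intro s hs
      rw [MonoidAlgebra.coeff_sub, Finsupp.sub_apply]
      by_cases h1 : s = 1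
      · subst h1; rw [coeff_intCast_one, sub_self]; exact Even.zero
      · rw [coeff_intCast_ne _ _ h1, sub_zero]; exact he s h1 hs)
  exact ⟨a, c.coeff 1, by rw [← ha, sub_add_cancel]⟩

/-- Conversely. -/
theorem sym_of_decomp (a : MonoidAlgebra ℤ Γ) (m : ℤ) (s : Γ) (hs : s ≠ 1) (hss : s * s = 1) :
    Even ((a + bar a + (m : MonoidAlgebra ℤ Γ)).coeff s) := by
  have hs' : s⁻¹ = s := inv_eq_of_mul_eq_one_right hss
  rw [MonoidAlgebra.coeff_add, Finsupp.add_apply, MonoidAlgebra.coeff_add, Finsupp.add_apply,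
    coeff_bar, hs', coeff_intCast_ne _ _ hs, add_zero]
  exact ⟨_, rfl⟩

theorem mul_intCast_comm (x : MonoidAlgebra ℤ Γ) (m : ℤ) :
    x * (m : MonoidAlgebra ℤ Γ) = (m : MonoidAlgebra ℤ Γ) * x := (Int.cast_commute m x).eq.symm

/-- `x c x̄` is visible if `c` is. -/
theorem conj_inv (x c : MonoidAlgebra ℤ Γ) (hc : bar c = c)
    (he : ∀ s : Γ, s ≠ 1 → s * s = 1 → Even (c.coeff s)) (s : Γ) (hs : s ≠ 1) (hss : s * s = 1) :
    Even ((x * c * bar x).coeff s) := by
  obtain ⟨a, m, rfl⟩ := sym_decomp c hc he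
  have h1 : x * (a + bar a + (m : MonoidAlgebra ℤ Γ)) * bar x =
      x * a * bar x + bar (x * a * bar x) + m • (x * bar x) := by
    rw [bar_mul, bar_mul, bar_bar, zsmul_eq_mul, mul_add, mul_add, add_mul, add_mul,
      mul_intCast_comm]
    simp only [mul_assoc]
  have hs' : s⁻¹ = s := inv_eq_of_mul_eq_one_right hss
  rw [h1, MonoidAlgebra.coeff_add, Finsupp.add_apply, MonoidAlgebra.coeff_add, Finsupp.add_apply,
    coeff_bar, hs', MonoidAlgebra.coeff_smul, Finsupp.smul_apply, smul_eq_mul]
  exact Even.add ⟨_, rfl⟩ ((norm_inv x s hs hss).mul_left m)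

/-- The coefficient at `1` of `x c x̄`. -/
theorem conj_one (x c : MonoidAlgebra ℤ Γ) (hc : bar c = c)
    (he : ∀ s : Γ, s ≠ 1 → s * s = 1 → Even (c.coeff s)) :
    Even ((x * c * bar x).coeff 1 + aug x * c.coeff 1) := by
  obtain ⟨a, m, rfl⟩ := sym_decomp c hc he
  have h1 : x * (a + bar a + (m : MonoidAlgebra ℤ Γ)) * bar x =
      x * a * bar x + bar (x * a * bar x) + m • (x * bar x) := by
    rw [bar_mul, bar_mul, bar_bar, zsmul_eq_mul, mul_add, mul_add, add_mul, add_mul,
      mul_intCast_comm]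
    simp only [mul_assoc]
  rw [h1]
  simp only [MonoidAlgebra.coeff_add, Finsupp.add_apply, coeff_bar, inv_one,
    MonoidAlgebra.coeff_smul, Finsupp.smul_apply, smul_eq_mul, coeff_intCast_one]
  have h2 := (even_two_mul ((x * a * bar x).coeff 1)).add ((norm_one x).mul_left m)
  have h3 := h2.add (even_two_mul (aug x * a.coeff 1))
  refine (congrArg Even ?_).mpr h3
  ring

end Pool.Agent.H750
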