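import Pool.Agent.H750.GaussOne

set_option autoImplicit false

/-! # The theorem of van der Blij, for a diagonalised form -/

namespace Pool.Agent.H750.GS

open Complex Finset Real Matrix

variable {ι : Type*} [Fintype ι] [DecidableEq ι]

theorem geom_unity (δ m : ℤ) (hδ : δ ≠ 0) :
    (∑ y ∈ range δ.natAbs, cexp (2 * π * I * (m * y / δ)) =
      if δ ∣ m then (δ.natAbs : ℂ) else 0) := by
  have hδc : (δ : ℂ) ≠ 0 := by exact_mod_cast hδ
  have h1 : ∀ y : ℕ, cexp (2 * π * I * (m * y / δ)) = (cexp (2 * π * I * (m / δ))) ^ y := by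
    intro y
    rw [← Complex.exp_nat_mul]
    congr 1; ring
  simp_rw [h1]
  have hp : (cexp (2 * π * I * (m / δ))) ^ δ.natAbs = 1 := by
    rw [← Complex.exp_nat_mul]
    rcases Int.natAbs_eq δ with h | h
    · have e : ((δ.natAbs : ℕ) : ℂ) = (δ : ℂ) := by
        have h2 := congrArg (Int.cast : ℤ → ℂ) h.symm
        rwa [Int.cast_natCast] at h2
      rw [e, show (δ : ℂ) * (2 * π * I * (m / δ)) = m * (2 * π * I) by field_simp]
      exact Complex.exp_int_mul_two_pi_mul_I m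
    · have e : ((δ.natAbs : ℕ) : ℂ) = -(δ : ℂ) := by
        have h1 : ((δ.natAbs : ℕ) : ℤ) = -δ := by linarith
        have h2 := congrArg (Int.cast : ℤ → ℂ) h1
        rwa [Int.cast_natCast, Int.cast_neg] at h2
      rw [e, show -(δ : ℂ) * (2 * π * I * (m / δ)) = ((-m : ℤ) : ℂ) * (2 * π * I) by
        push_cast; field_simp]
      exact Complex.exp_int_mul_two_pi_mul_I (-m)
  split_ifs with h
  · obtain ⟨k, rfl⟩ := h
    have e : cexp (2 * π * I * (((δ * k : ℤ) : ℂ) / δ)) = 1 := by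
      rw [show (2 * π * I * (((δ * k : ℤ) : ℂ) / δ) : ℂ) = k * (2 * π * I) by
        push_cast; field_simp]
      exact Complex.exp_int_mul_two_pi_mul_I k
    rw [e]; simp
  · have hne : cexp (2 * π * I * (m / δ)) ≠ 1 := by
      intro h0
      rw [Complex.exp_eq_one_iff] at h0
      obtain ⟨k, hk⟩ := h0
      apply h
      refine ⟨k, ?_⟩
      have h2 : (2 * π * I : ℂ) ≠ 0 := by
        simp [Real.pi_ne_zero]
      have h3 : (m : ℂ) / δ = k := by
        have : (2 * π * I : ℂ) * (m / δ) = (2 * π * I) * k := by rw [hk]; ring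
        exact mul_left_cancel₀ h2 this
      rw [div_eq_iff hδc] at h3
      have h4 : (m : ℂ) = ((δ * k : ℤ) : ℂ) := by push_cast; rw [h3]; ring
      exact_mod_cast h4
    rw [geom_sum_eq hne, hp, sub_self, zero_div]

/-- **van der Blij**: for a unimodular symmetric integral matrix `S` with characteristic vector
`t` and a rational diagonalisation, the signature is congruent to `t · S t` modulo eight. -/
theorem vdB_diag (S P : Matrix ι ι ℤ) (d t : ι → ℤ) (hS : IsUnit S) (hsym : Sᵀ = S)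
    (ht : ∀ x : ι → ℤ, Even (x ⬝ᵥ (S *ᵥ x) + x ⬝ᵥ (S *ᵥ t)))
    (hP : Pᵀ * S * P = Matrix.diagonal d) (hd : ∀ i, d i ≠ 0) :
    (8 : ℤ) ∣ (∑ i, (d i).sign) - t ⬝ᵥ (S *ᵥ t) := by
  set δ := P.det with hδ
  have hδ0 : δ ≠ 0 := by
    intro h0
    have h1 := congrArg Matrix.det hP
    rw [Matrix.det_mul, Matrix.det_mul, ← hδ, h0, mul_zero, Matrix.det_diagonal] at h1
    exact (Finset.prod_ne_zero_iff.mpr fun i _ => hd i) h1.symm
  have hδc : (δ : ℂ) ≠ 0 := by exact_mod_cast hδ0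
  set Q := P.adjugate with hQ
  have hPQ : P * Q = δ • (1 : Matrix ι ι ℤ) := Matrix.mul_adjugate P
  have hQP : Q * P = δ • (1 : Matrix ι ι ℤ) := Matrix.adjugate_mul P
  have hdQ : Matrix.diagonal d * Q = δ • (Pᵀ * S) := by
    rw [← hP, Matrix.mul_assoc, hPQ, Matrix.mul_smul, Matrix.mul_one]
  set κ : (ι → ℤ) → (ι → ℤ) := fun y => Pᵀ *ᵥ (S *ᵥ y) with hκ
  have hK : ∀ y i, δ * κ y i = d i * (Q *ᵥ y) i := by
    intro y i
    have h1 := congrFun (congrArg (fun M : Matrix ι ι ℤ => M *ᵥ y) hdQ) i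
    simp only [← Matrix.mulVec_mulVec, Matrix.smul_mulVec, Pi.smul_apply, smul_eq_mul,
      Matrix.mulVec_diagonal] at h1
    exact h1.symm
  have hA : ∀ (a : ι → ℤ) (y : ι → ℤ), ∑ i, (a i : ℂ) * κ y i / d i =
      ((a ⬝ᵥ (Q *ᵥ y) : ℤ) : ℂ) / δ := by
    intro a y
    rw [dotProduct, Int.cast_sum, Finset.sum_div]
    refine Finset.sum_congr rfl fun i _ => ?_
    have h1 : (δ : ℂ) * κ y i = d i * (Q *ᵥ y) i := by exact_mod_cast congrArg (Int.cast : ℤ → ℂ) (hK y i)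
    have h2 : (d i : ℂ) ≠ 0 := by exact_mod_cast hd i
    rw [div_eq_div_iff h2 hδc]
    push_cast
    linear_combination (a i : ℂ) * h1
  have hB : ∀ z y, ∑ i, (κ z i : ℂ) * κ y i / d i = ((y ⬝ᵥ (S *ᵥ z) : ℤ) : ℂ) := by
    intro z y
    rw [hA]
    have h1 : κ z ⬝ᵥ (Q *ᵥ y) = δ * (y ⬝ᵥ (S *ᵥ z)) := by
      simp only [hκ]
      rw [Matrix.mulVec_transpose, ← Matrix.dotProduct_mulVec,
        Matrix.mulVec_mulVec, hPQ, Matrix.smul_mulVec, Matrix.one_mulVec, dotProduct_smul,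
        smul_eq_mul, dotProduct_comm]
    rw [h1]; push_cast; field_simp
  set τ := κ t with hτ
  have hpar : ∀ i, Even (d i + τ i) := by
    intro i
    have h1 := ht (P *ᵥ Pi.single i 1)
    have h2 : (P *ᵥ Pi.single i 1) ⬝ᵥ (S *ᵥ (P *ᵥ Pi.single i 1)) = d i := by
      rw [Matrix.mulVec_mulVec, ← Matrix.vecMul_transpose, ← Matrix.dotProduct_mulVec,
        Matrix.mulVec_mulVec, ← Matrix.mul_assoc, hP]
      simp
    have h3 : (P *ᵥ Pi.single i 1) ⬝ᵥ (S *ᵥ t) = τ i := by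
      rw [← Matrix.vecMul_transpose, ← Matrix.dotProduct_mulVec, Matrix.mulVec_mulVec]
      simp [hτ, hκ]
    rwa [h2, h3] at h1
  -- the one-dimensional functions
  set F : ι → ℤ → ℂ := fun i a => cexp (π * I * ((a : ℂ) ^ 2 + a * τ i) / d i) with hF
  set D : ℕ := ∏ i, (d i).natAbs with hD
  have hD0 : 0 < D := Finset.prod_pos fun i _ => Int.natAbs_pos.mpr (hd i)
  have hdD : ∀ i, d i ∣ (D : ℤ) := by
    intro i
    rw [← Int.natAbs_dvd]
    exact_mod_cast Finset.dvd_prod_of_mem _ (Finset.mem_univ i)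
  have hper : ∀ i (a : ℤ), F i (a + D) = F i a := by
    intro i a
    obtain ⟨e, he⟩ := hdD i
    have he' : (D : ℂ) = d i * e := by
      have h2 := congrArg (Int.cast : ℤ → ℂ) he
      rwa [Int.cast_natCast, Int.cast_mul] at h2
    have hdi : (d i : ℂ) ≠ 0 := by exact_mod_cast hd i
    simp only [hF]
    have e1 : (π * I * (((a + (D : ℤ) : ℤ) : ℂ) ^ 2 + ((a + (D : ℤ) : ℤ) : ℂ) * τ i) / d i : ℂ) =
        π * I * ((a : ℂ) ^ 2 + a * τ i) / d i +
          π * I * ((2 * (a * e) + (d i * (e * e) + e * τ i) : ℤ) : ℂ) := by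
      push_cast
      rw [he']
      field_simp
      ring
    rw [e1, Complex.exp_add, exp_even, mul_one]
    refine (even_two_mul _).add ?_
    have h1 := hpar i
    rcases Int.even_or_odd e with h2 | h2
    · exact ((h2.mul_right e).mul_left (d i)).add (h2.mul_right _)
    · obtain ⟨k, rfl⟩ := h2
      obtain ⟨l, hl⟩ := h1
      refine ⟨d i * (2 * k ^ 2 + 2 * k) + k * τ i + l, ?_⟩
      have : τ i = l + l - d i := by linarith
      rw [this]; ring
  have hF0 : ∀ i, F i 0 = 1 := by intro i; simp [hF]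
  set T : ℂ := ∏ i, ∑ k ∈ range D, F i (k : ℕ) with hT
  have hTy : ∀ y : ι → ℤ, T = ∑ k ∈ Fintype.piFinset (fun _ : ι => range D),
      ∏ i, F i ((k i : ℕ) + κ y i) := by
    intro y
    rw [← Finset.prod_univ_sum (fun _ : ι => range D) (fun i (a : ℕ) => F i ((a : ℤ) + κ y i)), hT]
    exact Finset.prod_congr rfl fun i _ => (shift_sum (F i) D (hper i) (κ y i)).symm
  have hmul : ∀ (k y : ι → ℤ), ∏ i, F i (k i + κ y i) = (∏ i, F i (k i)) *
      cexp (2 * π * I * ((k ⬝ᵥ (Q *ᵥ y) : ℤ) / δ)) := by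
    intro k y
    simp only [hF]
    rw [← Complex.exp_sum, ← Complex.exp_sum, ← Complex.exp_add]
    have e1 : ∑ i, (π * I * (((k i + κ y i : ℤ) : ℂ) ^ 2 + ((k i + κ y i : ℤ) : ℂ) * τ i) / d i : ℂ)
        = ∑ i, (π * I * ((k i : ℂ) ^ 2 + (k i : ℂ) * τ i) / d i : ℂ) +
          2 * π * I * ∑ i, (k i : ℂ) * κ y i / d i +
          π * I * (∑ i, (κ y i : ℂ) * κ y i / d i + ∑ i, (κ t i : ℂ) * κ y i / d i) := by
      rw [Finset.mul_sum, ← Finset.sum_add_distrib, ← Finset.sum_add_distrib, Finset.mul_sum,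
        ← Finset.sum_add_distrib]
      refine Finset.sum_congr rfl fun i _ => ?_
      push_cast
      simp only [hτ]
      ring
    rw [e1, hA, hB, hB, Complex.exp_add]
    have e2 : (π * I * (((y ⬝ᵥ (S *ᵥ y) : ℤ) : ℂ) + ((y ⬝ᵥ (S *ᵥ t) : ℤ) : ℂ)) : ℂ) =
        π * I * ((y ⬝ᵥ (S *ᵥ y) + y ⬝ᵥ (S *ᵥ t) : ℤ) : ℂ) := by push_cast; ring
    rw [e2, exp_even _ (ht y), mul_one]
  have hval : ∀ y, ∏ i, F i (κ y i) = 1 := by
    intro y
    have h1 := hmul 0 y
    simpa [hF0] using h1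
  set N := δ.natAbs with hN
  have hN0 : 0 < N := Int.natAbs_pos.mpr hδ0
  have hchar : ∀ k : ι → ℤ, ∑ y ∈ Fintype.piFinset (fun _ : ι => range N),
      cexp (2 * π * I * ((k ⬝ᵥ (Q *ᵥ (fun i => ((y i : ℕ) : ℤ))) : ℤ) / δ)) =
      ∏ j, if δ ∣ (Qᵀ *ᵥ k) j then (N : ℂ) else 0 := by
    intro k
    have h1 : ∀ y : ι → ℕ, cexp (2 * π * I * ((k ⬝ᵥ (Q *ᵥ (fun i => ((y i : ℕ) : ℤ))) : ℤ) / δ)) =
        ∏ j, cexp (2 * π * I * (((Qᵀ *ᵥ k) j : ℤ) * (y j : ℕ) / δ)) := by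
      intro y
      rw [← Complex.exp_sum, Matrix.dotProduct_mulVec, ← Matrix.mulVec_transpose]
      congr 1
      rw [dotProduct, Int.cast_sum, Finset.sum_div, Finset.mul_sum]
      refine Finset.sum_congr rfl fun j _ => ?_
      push_cast
      ring
    simp_rw [h1]
    rw [← Finset.prod_univ_sum (fun _ : ι => range N)
      (fun j (a : ℕ) => cexp (2 * π * I * (((Qᵀ *ᵥ k) j : ℤ) * a / δ)))]
    exact Finset.prod_congr rfl fun j _ => geom_unity δ _ hδ0
  have hterm : ∀ k : ι → ℤ, (∏ i, F i (k i)) * (∏ j, if δ ∣ (Qᵀ *ᵥ k) j then (N : ℂ) else 0) =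
      (((∏ j : ι, if δ ∣ (Qᵀ *ᵥ k) j then (N : ℝ) else 0) : ℝ) : ℂ) := by
    intro k
    have hcast : (((∏ j : ι, if δ ∣ (Qᵀ *ᵥ k) j then (N : ℝ) else 0) : ℝ) : ℂ) =
        ∏ j, if δ ∣ (Qᵀ *ᵥ k) j then (N : ℂ) else 0 := by
      push_cast
      refine Finset.prod_congr rfl fun j _ => ?_
      split_ifs <;> simp
    rw [hcast]
    by_cases h : ∀ j, δ ∣ (Qᵀ *ᵥ k) j
    · choose v hv using h
      have h1 : k = Pᵀ *ᵥ v := by
        have h2 : Pᵀ *ᵥ (Qᵀ *ᵥ k) = δ • k := by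
          rw [Matrix.mulVec_mulVec, ← Matrix.transpose_mul, hQP]
          simp
        have h3 : Qᵀ *ᵥ k = δ • v := by
          ext j; rw [hv j]; rfl
        rw [h3, Matrix.mulVec_smul] at h2
        exact (smul_right_injective _ hδ0 h2).symm
      obtain ⟨S', rfl⟩ := hS
      have h4 : k = κ ((S'⁻¹).val *ᵥ v) := by
        simp only [hκ]
        rw [Matrix.mulVec_mulVec _ S'.val, S'.mul_inv, Matrix.one_mulVec]
        exact h1
      have h5 := hval ((S'⁻¹).val *ᵥ v)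
      rw [← h4] at h5
      rw [h5, one_mul]
    · push Not at h
      obtain ⟨j, hj⟩ := h
      have h0 : (∏ j, if δ ∣ (Qᵀ *ᵥ k) j then (N : ℂ) else 0) = 0 :=
        Finset.prod_eq_zero (Finset.mem_univ j) (by rw [if_neg hj])
      rw [h0, mul_zero]
  have havg : ((N : ℂ) ^ Fintype.card ι) * T =
      ((∑ k ∈ Fintype.piFinset (fun _ : ι => range D),
        ∏ j : ι, (if δ ∣ (Qᵀ *ᵥ (fun i => ((k i : ℕ) : ℤ))) j then (N : ℝ) else 0) : ℝ) : ℂ) := by
    have h1 : ((N : ℂ) ^ Fintype.card ι) * T =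
        ∑ y ∈ Fintype.piFinset (fun _ : ι => range N), T := by
      rw [Finset.sum_const, Fintype.card_piFinset]
      simp
    rw [h1]
    have h2 : ∀ y ∈ Fintype.piFinset (fun _ : ι => range N), T =
        ∑ k ∈ Fintype.piFinset (fun _ : ι => range D), (∏ i, F i ((k i : ℕ) : ℤ)) *
          cexp (2 * π * I * (((fun i => ((k i : ℕ) : ℤ)) ⬝ᵥ (Q *ᵥ (fun i => ((y i : ℕ) : ℤ))) : ℤ)
            / δ)) := by
      intro y _
      rw [hTy (fun i => ((y i : ℕ) : ℤ))]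
      exact Finset.sum_congr rfl fun k _ => hmul (fun i => ((k i : ℕ) : ℤ)) _
    rw [Finset.sum_congr rfl h2, Finset.sum_comm, Complex.ofReal_sum]
    refine Finset.sum_congr rfl fun k _ => ?_
    rw [← Finset.mul_sum, hchar, hterm]
  have hTpos : ∃ r : ℝ, 0 < r ∧ T = r := by
    set R : ℝ := ∑ k ∈ Fintype.piFinset (fun _ : ι => range D),
        ∏ j : ι, (if δ ∣ (Qᵀ *ᵥ (fun i => ((k i : ℕ) : ℤ))) j then (N : ℝ) else 0) with hR
    have hR0 : 0 < R := by
      refine Finset.sum_pos' (fun k _ => Finset.prod_nonneg fun j _ => by split_ifs <;> positivity)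
        ⟨0, ?_, ?_⟩
      · rw [Fintype.mem_piFinset]; intro i; simpa using hD0
      · refine Finset.prod_pos fun j _ => ?_
        have : (fun i : ι => (((0 : ι → ℕ) i : ℕ) : ℤ)) = 0 := by ext; simp
        rw [this, Matrix.mulVec_zero]
        simp only [Pi.zero_apply, dvd_zero, if_true]
        exact_mod_cast hN0
    refine ⟨R / (N : ℝ) ^ Fintype.card ι, by positivity, ?_⟩
    have hNc : ((N : ℂ) ^ Fintype.card ι) ≠ 0 := pow_ne_zero _ (by exact_mod_cast hN0.ne')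
    push_cast
    rw [eq_div_iff hNc, mul_comm]
    exact havg
  obtain ⟨r, hr, hTr⟩ := hTpos
  choose c hc hone using fun i => one (d i) (hd i) (τ i) (hpar i) D hD0 (hdD i)
  have hT2 : T = ((∏ i, c i : ℝ) : ℂ) *
      cexp (((π * ((∑ i, (d i).sign) - t ⬝ᵥ (S *ᵥ t) : ℤ) / 4 : ℝ) : ℂ) * I) := by
    rw [hT]
    have h1 : ∀ i, ∑ k ∈ range D, F i (k : ℕ) =
        c i * cexp (π * I * (((d i).sign : ℂ) - τ i ^ 2 / d i) / 4) := by
      intro i
      rw [← hone i]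
      refine Finset.sum_congr rfl fun k _ => ?_
      simp only [hF]; push_cast; rfl
    simp_rw [h1]
    rw [Finset.prod_mul_distrib, ← Complex.exp_sum]
    push_cast
    congr 2
    have h2 := hB t t
    have h3 : ∑ i, (π * I * (((d i).sign : ℂ) - (τ i : ℂ) ^ 2 / d i) / 4 : ℂ) =
        π * I / 4 * (∑ i, ((d i).sign : ℂ)) - π * I / 4 * ∑ i, (κ t i : ℂ) * κ t i / d i := by
      rw [Finset.mul_sum, Finset.mul_sum, ← Finset.sum_sub_distrib]
      refine Finset.sum_congr rfl fun i _ => ?_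
      simp only [hτ]
      ring
    rw [h3, h2]
    ring
  have hC : 0 < ∏ i, c i := Finset.prod_pos fun i _ => hc i
  set θ : ℤ := (∑ i, (d i).sign) - t ⬝ᵥ (S *ᵥ t) with hθ
  have h1 : cexp (((π * (θ : ℤ) / 4 : ℝ) : ℂ) * I) = ((r / ∏ i, c i : ℝ) : ℂ) := by
    have hCc : ((∏ i, c i : ℝ) : ℂ) ≠ 0 := by exact_mod_cast hC.ne'
    rw [Complex.ofReal_div r, eq_div_iff hCc, mul_comm, ← hT2, hTr]
  have h2 : r / ∏ i, c i = 1 := by
    have h3 := congrArg norm h1
    rw [Complex.norm_exp_ofReal_mul_I, Complex.norm_real, Real.norm_of_nonneg (by positivity)] at h3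
    exact h3.symm
  rw [h2, Complex.ofReal_one, Complex.exp_eq_one_iff] at h1
  obtain ⟨n, hn⟩ := h1
  refine ⟨n, ?_⟩
  have h3 : (π * I : ℂ) ≠ 0 := by simp [Real.pi_ne_zero]
  have h4 : (π * I : ℂ) * θ = (π * I) * (8 * n) := by
    push_cast at hn
    linear_combination 4 * hn
  have h5 := mul_left_cancel₀ h3 h4
  exact_mod_cast h5

end Pool.Agent.H750.GS
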