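import Pool.Agent.H750.GroupRing

set_option autoImplicit false

/-! # Sums of norms of elements with odd augmentation -/

namespace Pool.Agent.H750

open Matrix Pool.Agent.R791

variable {Γ : Type*} [Group Γ]

/-- The sums of elements `± a ā` where `a` has odd augmentation. -/
noncomputable def oddNorms (Γ : Type*) [Group Γ] : AddSubgroup (MonoidAlgebra ℤ Γ) where
  carrier := {c | ∃ (k : ℕ) (e : Fin k → ℤˣ) (a : Fin k → MonoidAlgebra ℤ Γ),
    (∀ i, Odd (aug (a i))) ∧ c = ∑ i, (e i : ℤ) • (a i * bar (a i))}
  zero_mem' := ⟨0, Fin.elim0, Fin.elim0, fun i => i.elim0, by simp⟩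
  add_mem' := by
    rintro c c' ⟨k, e, a, ha, rfl⟩ ⟨k', e', a', ha', rfl⟩
    refine ⟨k + k', Fin.append e e', Fin.append a a', ?_, ?_⟩
    · intro i
      refine Fin.addCases (fun i => ?_) (fun i => ?_) i
      · rw [Fin.append_left]; exact ha i
      · rw [Fin.append_right]; exact ha' i
    · rw [Fin.sum_univ_add]
      congr 1
      · exact Finset.sum_congr rfl fun i _ => by rw [Fin.append_left, Fin.append_left]
      · exact Finset.sum_congr rfl fun i _ => by rw [Fin.append_right, Fin.append_right]
  neg_mem' := by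
    rintro c ⟨k, e, a, ha, rfl⟩
    refine ⟨k, fun i => - e i, a, ha, ?_⟩
    rw [← Finset.sum_neg_distrib]
    exact Finset.sum_congr rfl fun i _ => by rw [Units.val_neg, neg_smul]

theorem norm_mem (a : MonoidAlgebra ℤ Γ) (ha : Odd (aug a)) : a * bar a ∈ oddNorms Γ :=
  ⟨1, fun _ => 1, fun _ => a, fun _ => ha, by simp⟩

theorem int_mem (m : ℤ) : (m : MonoidAlgebra ℤ Γ) ∈ oddNorms Γ := by
  have h := norm_mem (Γ := Γ) 1 (by simp)
  rw [bar_one, mul_one] at h
  have h2 := (oddNorms Γ).zsmul_mem h m
  rwa [zsmul_one] at h2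

/-- the element `g + g⁻¹` -/
noncomputable def br (g : Γ) : MonoidAlgebra ℤ Γ := MonoidAlgebra.single g 1 + MonoidAlgebra.single g⁻¹ 1

theorem br_inv (g : Γ) : br g⁻¹ = br g := by unfold br; rw [inv_inv, add_comm]

theorem plus_mem (g h : Γ) : br g + br h + br (g * h⁻¹) ∈ oddNorms Γ := by
  have h1 := norm_mem (1 + MonoidAlgebra.single g 1 + MonoidAlgebra.single h 1 : MonoidAlgebra ℤ Γ)
    (by rw [map_add, map_add, map_one, aug_single, aug_single]; decide)
  have h2 := (oddNorms Γ).sub_mem h1 (int_mem 3)
  convert h2 using 1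
  rw [bar_add, bar_add, bar_one, bar_single, bar_single]
  unfold br
  rw [MonoidAlgebra.one_def]
  simp only [mul_add, add_mul, MonoidAlgebra.single_mul_single, mul_one, one_mul, mul_inv_cancel,
    _root_.mul_inv_rev, inv_inv]
  have h3 : ((3 : ℤ) : MonoidAlgebra ℤ Γ) = MonoidAlgebra.single 1 1 + MonoidAlgebra.single 1 1 +
      MonoidAlgebra.single 1 1 := by
    rw [intCast_eq_single, ← MonoidAlgebra.single_add, ← MonoidAlgebra.single_add]; norm_num
  rw [h3]
  abel

theorem minus_mem (g h : Γ) : br h - br g - br (g * h⁻¹) ∈ oddNorms Γ := by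
  have h1 := norm_mem (1 - MonoidAlgebra.single g 1 + MonoidAlgebra.single h 1 : MonoidAlgebra ℤ Γ)
    (by rw [map_add, map_sub, map_one, aug_single, aug_single]; decide)
  have h2 := (oddNorms Γ).sub_mem h1 (int_mem 3)
  convert h2 using 1
  rw [bar_add, sub_eq_add_neg (1 : MonoidAlgebra ℤ Γ), bar_add, bar_neg', bar_one, bar_single,
    bar_single]
  unfold br
  rw [MonoidAlgebra.one_def]
  simp only [mul_add, add_mul, mul_neg, neg_mul, MonoidAlgebra.single_mul_single, mul_one, one_mul,
    mul_inv_cancel, _root_.mul_inv_rev, inv_inv, neg_neg]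
  have h3 : ((3 : ℤ) : MonoidAlgebra ℤ Γ) = MonoidAlgebra.single 1 1 + MonoidAlgebra.single 1 1 +
      MonoidAlgebra.single 1 1 := by
    rw [intCast_eq_single, ← MonoidAlgebra.single_add, ← MonoidAlgebra.single_add]; norm_num
  rw [h3]
  abel

theorem two_mem (h : Γ) : br h + br h ∈ oddNorms Γ := by
  have h1 := (oddNorms Γ).add_mem (plus_mem 1 h) (minus_mem 1 h)
  convert h1 using 1
  abel

/-- the two-torsion of the quotient -/
def tors (Γ : Type*) [Group Γ] : AddSubgroup (MonoidAlgebra ℤ Γ ⧸ oddNorms Γ) where
  carrier := {x | x + x = 0}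
  zero_mem' := by simp
  add_mem' := by
    intro a b ha hb
    change a + a = 0 at ha
    change b + b = 0 at hb
    change (a + b) + (a + b) = 0
    have : (a + b) + (a + b) = (a + a) + (b + b) := by abel
    rw [this, ha, hb, add_zero]
  neg_mem' := by
    intro a ha
    change a + a = 0 at ha
    change -a + -a = 0
    rw [← neg_add, ha, neg_zero]

/-- the homomorphism `g ↦ [g + g⁻¹]` -/
noncomputable def brHom (Γ : Type*) [Group Γ] : Γ →* Multiplicative (tors Γ) where
  toFun g := Multiplicative.ofAdd ⟨QuotientAddGroup.mk (br g), by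
    change QuotientAddGroup.mk (br g) + QuotientAddGroup.mk (br g) = 0
    rw [← QuotientAddGroup.mk_add]
    exact (QuotientAddGroup.eq_zero_iff _).mpr (two_mem g)⟩
  map_one' := by
    rw [← ofAdd_zero]
    congr 1
    ext
    change QuotientAddGroup.mk (br (1 : Γ)) = 0
    refine (QuotientAddGroup.eq_zero_iff _).mpr ?_
    have h : br (1 : Γ) = ((2 : ℤ) : MonoidAlgebra ℤ Γ) := by
      unfold br
      rw [inv_one, ← MonoidAlgebra.single_add, intCast_eq_single]; norm_num
    rw [h]; exact int_mem 2
  map_mul' g k := by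
    rw [← ofAdd_add]
    congr 1
    ext
    change QuotientAddGroup.mk (br (g * k)) = QuotientAddGroup.mk (br g) + QuotientAddGroup.mk (br k)
    rw [← QuotientAddGroup.mk_add, QuotientAddGroup.eq]
    have h1 := plus_mem g k⁻¹
    rw [inv_inv, br_inv] at h1
    have h2 := (oddNorms Γ).sub_mem h1 (two_mem (g * k))
    convert h2 using 1
    abel

/-- An element `a + ā + m` is in the subgroup of sums of odd norms if its coefficients satisfy
a congruence for each homomorphism to the group of order two. -/
theorem mem_of_forall (a : MonoidAlgebra ℤ Γ)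
    (h : ∀ f : Γ →* Multiplicative (ZMod 2), (4 : ℤ) ∣ aug a - augf f a) :
    a + bar a ∈ oddNorms Γ := by
  -- the class of `a + ā`
  have hadd : ∀ x : MonoidAlgebra ℤ Γ, QuotientAddGroup.mk (s := oddNorms Γ) (x + bar x) ∈ tors Γ := by
    intro x
    induction x using MonoidAlgebra.induction_linear with
    | zero => simp
    | add x y hx hy =>
      have e : x + y + bar (x + y) = (x + bar x) + (y + bar y) := by rw [bar_add]; abel
      rw [e, QuotientAddGroup.mk_add]
      exact (tors Γ).add_mem hx hy
    | single g r =>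
      have e : MonoidAlgebra.single g r + bar (MonoidAlgebra.single g r) = r • br g := by
        unfold br
        rw [bar_single, smul_add, MonoidAlgebra.smul_single, MonoidAlgebra.smul_single]; simp
      rw [e, QuotientAddGroup.mk_zsmul]
      exact (tors Γ).zsmul_mem (brHom Γ g).toAdd.2 r
  let cl : MonoidAlgebra ℤ Γ →+ tors Γ :=
    { toFun := fun x => ⟨_, hadd x⟩
      map_zero' := by ext; simp
      map_add' := by
        intro x y
        ext
        change QuotientAddGroup.mk (x + y + bar (x + y)) = QuotientAddGroup.mk (x + bar x) +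
          QuotientAddGroup.mk (y + bar y)
        rw [← QuotientAddGroup.mk_add]
        congr 1
        rw [bar_add]; abel }
  have h2t : ∀ x : tors Γ, 2 • x = 0 := by
    intro x
    rw [two_smul]
    ext
    exact x.2
  letI : Module (ZMod 2) (tors Γ) := AddCommGroup.zmodModule h2t
  have hcl : cl a = 0 := by
    rw [← Module.forall_dual_apply_eq_zero_iff (ZMod 2)]
    intro lam
    -- the homomorphism given by `lam`
    let f : Γ →* Multiplicative (ZMod 2) :=
      (AddMonoidHom.toMultiplicative lam.toAddMonoidHom).comp (brHom Γ)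
    have hf : ∀ g, Multiplicative.toAdd (f g) = lam (cl (MonoidAlgebra.single g 1)) := by
      intro g
      change lam (brHom Γ g).toAdd = lam (cl (MonoidAlgebra.single g 1))
      congr 1
      ext
      change QuotientAddGroup.mk (br g) = QuotientAddGroup.mk (MonoidAlgebra.single g 1 +
        bar (MonoidAlgebra.single g 1))
      rw [bar_single]; rfl
    have key : ∀ x : MonoidAlgebra ℤ Γ, ∃ k : ℤ, aug x - augf f x = 2 * k ∧ lam (cl x) = (k : ZMod 2) := by
      intro x
      induction x using MonoidAlgebra.induction_linear with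
      | zero => exact ⟨0, by simp, by simp⟩
      | add x y hx hy =>
        obtain ⟨k, hk, hk'⟩ := hx
        obtain ⟨l, hl, hl'⟩ := hy
        refine ⟨k + l, ?_, ?_⟩
        · rw [map_add, map_add]; linear_combination hk + hl
        · rw [map_add, map_add, hk', hl']; push_cast; rfl
      | single g r =>
        have e : MonoidAlgebra.single g r = r • (MonoidAlgebra.single g 1 : MonoidAlgebra ℤ Γ) := by
          rw [MonoidAlgebra.smul_single]; simp
        have e2 : lam (cl (MonoidAlgebra.single g r)) = (r : ZMod 2) * Multiplicative.toAdd (f g) := by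
          rw [hf, e, map_zsmul, map_zsmul, zsmul_eq_mul]
        by_cases h1 : f g = 1
        · refine ⟨0, ?_, ?_⟩
          · rw [aug_single, augf_single, if_pos h1]; ring
          · rw [e2, h1]; simp
        · refine ⟨r, ?_, ?_⟩
          · rw [aug_single, augf_single, if_neg h1]; ring
          · rw [e2]
            have h3 : ∀ z : Multiplicative (ZMod 2), z ≠ 1 → Multiplicative.toAdd z = 1 := by decide
            rw [h3 _ h1, mul_one]
    obtain ⟨k, hk, hk'⟩ := key a
    rw [hk']
    rw [ZMod.intCast_eq_zero_iff_even]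
    obtain ⟨l, hl⟩ := h f
    exact ⟨l, by linarith⟩
  have h1 : QuotientAddGroup.mk (s := oddNorms Γ) (a + bar a) = 0 := congrArg Subtype.val hcl
  exact (QuotientAddGroup.eq_zero_iff _).mp h1

end Pool.Agent.H750
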