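import Pool.Agent.H750.Milgram

set_option autoImplicit false

/-! # Signatures of integral symmetric matrices -/

namespace Pool.Agent.H750

open Matrix Module

variable {ι κ : Type*} [Fintype ι] [DecidableEq ι] [Fintype κ] [DecidableEq κ]

/-- The signature of the symmetric bilinear form over `ℝ` with the integral matrix `M`: the maximal
dimension of a subspace on which it is positive definite minus the maximal dimension of a subspace
on which it is negative definite. -/
noncomputable def sig (M : Matrix ι ι ℤ) : ℤ :=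
  (sigPos (M.map (Int.cast : ℤ → ℝ)).toQuadraticForm' : ℤ) -
    (sigNeg (M.map (Int.cast : ℤ → ℝ)).toQuadraticForm' : ℤ)

theorem qf_apply (M : Matrix ι ι ℝ) (x : ι → ℝ) : M.toQuadraticForm' x = x ⬝ᵥ (M *ᵥ x) := by
  unfold Matrix.toQuadraticForm'
  rw [LinearMap.BilinMap.toQuadraticMap_apply, Matrix.toLinearMap₂'_apply']

theorem qf_equiv (M : Matrix ι ι ℝ) (P : Matrix ι κ ℝ) (Q : Matrix κ ι ℝ) (h1 : P * Q = 1)
    (h2 : Q * P = 1) :
    QuadraticMap.Equivalent (Pᵀ * M * P).toQuadraticForm' M.toQuadraticForm' := by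
  refine ⟨{ Matrix.toLin'OfInv h2 h1 with map_app' := ?_ }⟩
  intro x
  change M.toQuadraticForm' (P *ᵥ x) = _
  rw [qf_apply, qf_apply, ← Matrix.mulVec_mulVec, ← Matrix.mulVec_mulVec,
    Matrix.dotProduct_mulVec x, ← Matrix.mulVec_transpose, Matrix.transpose_transpose]

theorem sig_congr (M : Matrix ι ι ℤ) (P : Matrix ι κ ℤ) (Q : Matrix κ ι ℤ) (h1 : P * Q = 1)
    (h2 : Q * P = 1) : sig (Pᵀ * M * P) = sig M := by
  have h := qf_equiv (M.map (Int.castRingHom ℝ)) (P.map (Int.castRingHom ℝ))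
    (Q.map (Int.castRingHom ℝ))
    (by rw [← Matrix.map_mul, h1, Matrix.map_one _ (map_zero _) (map_one _)])
    (by rw [← Matrix.map_mul, h2, Matrix.map_one _ (map_zero _) (map_one _)])
  have e : (Pᵀ * M * P).map (Int.cast : ℤ → ℝ) = (P.map (Int.castRingHom ℝ))ᵀ *
      M.map (Int.castRingHom ℝ) * P.map (Int.castRingHom ℝ) := by
    change (Pᵀ * M * P).map (Int.castRingHom ℝ) = _
    rw [Matrix.map_mul, Matrix.map_mul, Matrix.transpose_map]
  unfold sig
  rw [e, h.sigPos_eq, h.sigNeg_eq]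
  rfl

/-- Sylvester's law of inertia. -/
theorem sig_of_diag (M P : Matrix ι ι ℤ) (d : ι → ℤ) (hP : P.det ≠ 0)
    (h : Pᵀ * M * P = diagonal d) : sig M = ∑ i, (d i).sign := by
  have hdet : IsUnit (P.map (Int.castRingHom ℝ)).det := by
    have : (P.map (Int.castRingHom ℝ)).det = ((P.det : ℤ) : ℝ) :=
      (RingHom.map_det (Int.castRingHom ℝ) P).symm
    rw [this, isUnit_iff_ne_zero]
    exact_mod_cast hP
  have e : (M.map (Int.castRingHom ℝ)) = M.map (Int.cast : ℤ → ℝ) := rfl
  have h1 := qf_equiv (M.map (Int.castRingHom ℝ)) (P.map (Int.castRingHom ℝ))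
    (P.map (Int.castRingHom ℝ))⁻¹ (Matrix.mul_nonsing_inv _ hdet) (Matrix.nonsing_inv_mul _ hdet)
  have h2 : (P.map (Int.castRingHom ℝ))ᵀ * M.map (Int.castRingHom ℝ) *
      P.map (Int.castRingHom ℝ) = diagonal fun i => ((d i : ℤ) : ℝ) := by
    have h3 := congrArg (fun A : Matrix ι ι ℤ => A.map (Int.castRingHom ℝ)) h
    simp only [Matrix.map_mul, Matrix.transpose_map] at h3
    rw [h3, Matrix.diagonal_map (map_zero _)]
    rfl
  have h4 : (diagonal fun i => ((d i : ℤ) : ℝ)).toQuadraticForm' =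
      QuadraticMap.weightedSumSquares ℝ (fun i => ((d i : ℤ) : ℝ)) := by
    ext x
    rw [qf_apply, QuadraticMap.weightedSumSquares_apply, dotProduct]
    refine Finset.sum_congr rfl fun i _ => ?_
    rw [Matrix.mulVec_diagonal, smul_eq_mul]; ring
  rw [h2, h4] at h1
  have h5 := QuadraticForm.sigPos_of_equiv_weightedSumSquares h1.symm
  have h6 := QuadraticForm.sigNeg_of_equiv_weightedSumSquares h1.symm
  unfold sig
  rw [← e, h5, h6]
  have h7 : {i | (0 : ℝ) < ((d i : ℤ) : ℝ)} = ((Finset.univ.filter fun i => 0 < d i : Finset ι) : Set ι) := by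
    ext i; simp
  have h8 : {i | ((d i : ℤ) : ℝ) < 0} = ((Finset.univ.filter fun i => d i < 0 : Finset ι) : Set ι) := by
    ext i; simp
  rw [h7, h8, Set.ncard_coe_finset, Set.ncard_coe_finset, Finset.card_filter, Finset.card_filter]
  push_cast
  rw [← Finset.sum_sub_distrib]
  refine Finset.sum_congr rfl fun i _ => ?_
  rcases lt_trichotomy (d i) 0 with h9 | h9 | h9
  · rw [Int.sign_eq_neg_one_of_neg h9, if_neg (by omega), if_pos h9]; norm_num
  · rw [h9]; simp
  · rw [Int.sign_eq_one_of_pos h9, if_pos h9, if_neg (by omega)]; norm_num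

theorem exists_diag (M : Matrix ι ι ℤ) (hM : Mᵀ = M) :
    ∃ (P : Matrix ι ι ℤ) (d : ι → ℤ), P.det ≠ 0 ∧ Pᵀ * M * P = diagonal d := by
  set Mq : Matrix ι ι ℚ := M.map (Int.castRingHom ℚ) with hMq
  set B : LinearMap.BilinForm ℚ (ι → ℚ) := Matrix.toBilin' Mq with hB
  have hBs : LinearMap.IsSymm B := by
    rw [← LinearMap.BilinForm.isSymm_iff, LinearMap.BilinForm.isSymm_def, hB]
    intro x y
    rw [Matrix.toBilin'_apply', Matrix.toBilin'_apply', Matrix.dotProduct_mulVec,
      ← Matrix.mulVec_transpose, dotProduct_comm]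
    rw [show Mqᵀ = Mq by rw [hMq, ← Matrix.transpose_map, hM]]
  obtain ⟨v, hv⟩ := LinearMap.BilinForm.exists_orthogonal_basis hBs
  have hcard : Fintype.card ι = finrank ℚ (ι → ℚ) := (Module.finrank_fintype_fun_eq_card ℚ).symm
  set b : Basis ι ℚ (ι → ℚ) := v.reindex ((Fintype.equivFinOfCardEq hcard).symm) with hb
  have hbo : ∀ i j, i ≠ j → B (b i) (b j) = 0 := by
    intro i j hij
    rw [hb, Basis.reindex_apply, Basis.reindex_apply]
    exact hv (fun h => hij (by simpa using h))
  obtain ⟨c, hc⟩ := IsLocalization.exist_integer_multiples_of_finite (nonZeroDivisors ℤ)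
    (fun p : ι × ι => b p.2 p.1)
  have hc0 : ((c : ℤ)) ≠ 0 := nonZeroDivisors.ne_zero c.2
  choose P' hP' using hc
  set P : Matrix ι ι ℤ := fun i j => P' (i, j) with hP
  have hPb : P.map (Int.castRingHom ℚ) = (c : ℚ) • (Pi.basisFun ℚ ι).toMatrix b := by
    ext i j
    have h1 := hP' (i, j)
    rw [Matrix.map_apply, Matrix.smul_apply, Basis.toMatrix_apply, Pi.basisFun_repr]
    simp only [hP]
    rw [algebraMap_int_eq] at h1
    have h2 : ((c : ℤ) : ℚ) • b j i = ((c : ℤ)) • b j i := by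
      rw [zsmul_eq_mul, smul_eq_mul]
    rw [h2]
    exact h1
  have hdet : P.det ≠ 0 := by
    intro h0
    have h1 : (P.map (Int.castRingHom ℚ)).det = 0 := by
      rw [← RingHom.mapMatrix_apply, ← RingHom.map_det, h0, map_zero]
    rw [hPb, Matrix.det_smul] at h1
    rcases mul_eq_zero.mp h1 with h2 | h2
    · exact pow_ne_zero _ (by exact_mod_cast hc0) h2
    · have h3 := Basis.toMatrix_mul_toMatrix_flip (Pi.basisFun ℚ ι) b
      have h4 := congrArg Matrix.det h3
      rw [Matrix.det_mul, h2, zero_mul, Matrix.det_one] at h4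
      exact zero_ne_one h4
  refine ⟨P, fun i => (Pᵀ * M * P) i i, hdet, ?_⟩
  ext i j
  by_cases hij : i = j
  · subst hij; rw [Matrix.diagonal_apply_eq]
  · rw [Matrix.diagonal_apply_ne _ hij]
    have h1 : (((Pᵀ * M * P) i j : ℤ) : ℚ) = (c : ℚ) * c * B (b i) (b j) := by
      have h2 : (((Pᵀ * M * P) i j : ℤ) : ℚ) = ((Pᵀ * M * P).map (Int.castRingHom ℚ)) i j := rfl
      rw [h2, Matrix.map_mul, Matrix.map_mul, Matrix.transpose_map, hPb, hB,
        Matrix.toBilin'_apply']
      have h5 : ∀ k, ((Pi.basisFun ℚ ι).toMatrix b)ᵀ k = b k := by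
        intro k; ext l; simp [Matrix.transpose_apply, Basis.toMatrix_apply]
      rw [Matrix.transpose_smul, Matrix.smul_mul, Matrix.mul_smul, Matrix.smul_mul,
        Matrix.smul_apply, Matrix.smul_apply, smul_eq_mul, smul_eq_mul, ← mul_assoc]
      congr 1
      rw [Matrix.mul_assoc, Matrix.mul_apply]
      rw [dotProduct]
      refine Finset.sum_congr rfl fun k _ => ?_
      rw [h5]
      congr 1
    rw [hbo i j hij, mul_zero] at h1
    exact_mod_cast h1

end Pool.Agent.H750
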