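import Pool.Agent.H750.Forms

set_option autoImplicit false

/-! # The structure of visible symmetric forms -/

namespace Pool.Agent.H750

open Matrix Pool.Agent.R791

variable {Γ : Type*} [Group Γ] {ι κ μ ν : Type*}

/-! ### signed sums of odd norms -/

/-- signed sums of odd norms with given sum of the signs -/
def Rep (c : (MonoidAlgebra ℤ Γ)) (N : ℤ) : Prop :=
  ∃ (k : ℕ) (e : Fin k → ℤˣ) (a : Fin k → (MonoidAlgebra ℤ Γ)), (∀ i, Odd (aug (a i))) ∧
    c = ∑ i, (e i : ℤ) • (a i * bar (a i)) ∧ ∑ i, (e i : ℤ) = N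

theorem Rep.add {c c' : (MonoidAlgebra ℤ Γ)} {N N' : ℤ} (h : Rep c N) (h' : Rep c' N') : Rep (c + c') (N + N') := by
  obtain ⟨k, e, a, ha, rfl, rfl⟩ := h
  obtain ⟨k', e', a', ha', rfl, rfl⟩ := h'
  refine ⟨k + k', Fin.append e e', Fin.append a a', ?_, ?_, ?_⟩
  · intro i
    refine Fin.addCases (fun i => ?_) (fun i => ?_) i
    · rw [Fin.append_left]; exact ha i
    · rw [Fin.append_right]; exact ha' i
  · rw [Fin.sum_univ_add]
    congr 1
    · exact Finset.sum_congr rfl fun i _ => by rw [Fin.append_left, Fin.append_left]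
    · exact Finset.sum_congr rfl fun i _ => by rw [Fin.append_right, Fin.append_right]
  · rw [Fin.sum_univ_add]
    congr 1
    · exact Finset.sum_congr rfl fun i _ => by rw [Fin.append_left]
    · exact Finset.sum_congr rfl fun i _ => by rw [Fin.append_right]

theorem Rep.neg {c : (MonoidAlgebra ℤ Γ)} {N : ℤ} (h : Rep c N) : Rep (-c) (-N) := by
  obtain ⟨k, e, a, ha, rfl, rfl⟩ := h
  refine ⟨k, fun i => - e i, a, ha, ?_, ?_⟩
  · rw [← Finset.sum_neg_distrib]
    exact Finset.sum_congr rfl fun i _ => by rw [Units.val_neg, neg_smul]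
  · rw [← Finset.sum_neg_distrib]
    exact Finset.sum_congr rfl fun i _ => by rw [Units.val_neg]

theorem rep_of_mem {c : (MonoidAlgebra ℤ Γ)} (h : c ∈ oddNorms Γ) : ∃ N, Rep c N := by
  obtain ⟨k, e, a, ha, h⟩ := h
  exact ⟨_, k, e, a, ha, h, rfl⟩

theorem rep_zero : Rep (0 : (MonoidAlgebra ℤ Γ)) 0 := ⟨0, Fin.elim0, Fin.elim0, fun i => i.elim0, by simp, by simp⟩

theorem rep_eight : Rep (0 : (MonoidAlgebra ℤ Γ)) 8 := by
  refine ⟨10, Fin.cons (-1) (fun _ => 1), Fin.cons ((3 : ℤ) : (MonoidAlgebra ℤ Γ)) (fun _ => 1), ?_, ?_, ?_⟩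
  · intro i
    refine Fin.cases ?_ (fun i => ?_) i
    · rw [Fin.cons_zero, aug_intCast]; decide
    · rw [Fin.cons_succ, map_one]; decide
  · rw [Fin.sum_univ_succ]
    simp only [Fin.cons_zero, Fin.cons_succ, bar_intCast, bar_one, mul_one, Units.val_neg,
      Units.val_one, Finset.sum_const, Finset.card_univ, Fintype.card_fin]
    norm_num
  · rw [Fin.sum_univ_succ]
    simp

theorem rep_shift {c : (MonoidAlgebra ℤ Γ)} {N : ℤ} (h : Rep c N) (j : ℤ) : Rep c (N + 8 * j) := by
  have key : ∀ j : ℤ, Rep (0 : (MonoidAlgebra ℤ Γ)) (8 * j) := by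
    intro j
    induction j using Int.induction_on with
    | zero => simpa using rep_zero
    | succ i ih =>
      have h1 := ih.add rep_eight
      rw [add_zero] at h1
      rwa [mul_add, mul_one]
    | pred i ih =>
      have h1 := ih.add (rep_eight (Γ := Γ)).neg
      rw [neg_zero, add_zero] at h1
      rwa [mul_sub, mul_one]
  have h2 := h.add (key j)
  rwa [add_zero] at h2

/-! ### augmentations of matrices -/

theorem augMat_apply (A : Matrix ι κ (MonoidAlgebra ℤ Γ)) (i : ι) (j : κ) : augMat A i j = aug (A i j) := by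
  unfold augMat aug
  rw [Matrix.of_apply, MonoidAlgebra.lift_apply]
  refine Finsupp.sum_congr fun g _ => ?_
  simp

theorem augMat_eq (A : Matrix ι κ (MonoidAlgebra ℤ Γ)) : augMat A = A.map (aug : (MonoidAlgebra ℤ Γ) →ₐ[ℤ] ℤ) := by
  ext i j; rw [augMat_apply]; rfl

theorem augMat_mul [Fintype κ] (A : Matrix ι κ (MonoidAlgebra ℤ Γ)) (B : Matrix κ μ (MonoidAlgebra ℤ Γ)) :
    augMat (A * B) = augMat A * augMat B := by
  rw [augMat_eq, augMat_eq, augMat_eq, Matrix.map_mul]

theorem augMat_adj (A : Matrix ι κ (MonoidAlgebra ℤ Γ)) : augMat (adj A) = (augMat A)ᵀ := by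
  ext i j; rw [augMat_apply, adj_apply, aug_bar, Matrix.transpose_apply, augMat_apply]

theorem augMat_one [DecidableEq ι] : augMat (1 : Matrix ι ι (MonoidAlgebra ℤ Γ)) = 1 := by
  rw [augMat_eq, Matrix.map_one _ (map_zero _) (map_one _)]

theorem augMat_fromBlocks (A : Matrix ι κ (MonoidAlgebra ℤ Γ)) (B : Matrix ι ν (MonoidAlgebra ℤ Γ)) (C : Matrix μ κ (MonoidAlgebra ℤ Γ))
    (D : Matrix μ ν (MonoidAlgebra ℤ Γ)) : augMat (fromBlocks A B C D) =
      fromBlocks (augMat A) (augMat B) (augMat C) (augMat D) := by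
  rw [augMat_eq, Matrix.fromBlocks_map]; simp only [augMat_eq]

theorem augMat_zero : augMat (0 : Matrix ι κ (MonoidAlgebra ℤ Γ)) = 0 := by
  ext i j; rw [augMat_apply]; simp

theorem augMat_osum (A : Matrix ι ι (MonoidAlgebra ℤ Γ)) (B : Matrix κ κ (MonoidAlgebra ℤ Γ)) :
    augMat (osum A B) = fromBlocks (augMat A) 0 0 (augMat B) := by
  unfold osum; rw [augMat_fromBlocks, augMat_zero, augMat_zero]

theorem augMat_signForm {k : ℕ} (e : Fin k → ℤˣ) :
    augMat (signForm Γ e) = diagonal fun i => (e i : ℤ) := by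
  ext i j
  rw [augMat_apply]
  unfold signForm
  by_cases h : i = j
  · subst h; rw [diagonal_apply_eq, diagonal_apply_eq, aug_intCast]
  · rw [diagonal_apply_ne _ h, diagonal_apply_ne _ h, map_zero]

section

variable [Fintype ι] [DecidableEq ι] [Fintype κ] [DecidableEq κ]

theorem augMat_unit {A : Matrix ι ι (MonoidAlgebra ℤ Γ)} (hA : IsUnit A) : IsUnit (augMat A) := by
  rw [augMat_eq]
  exact hA.map (RingHom.mapMatrix (aug : (MonoidAlgebra ℤ Γ) →ₐ[ℤ] ℤ).toRingHom)

theorem two_dvd_diff (f : Γ →* Multiplicative (ZMod 2)) (x : (MonoidAlgebra ℤ Γ)) :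
    ∃ k : ℤ, aug x - augf f x = 2 * k := by
  induction x using MonoidAlgebra.induction_linear with
  | zero => exact ⟨0, by simp⟩
  | add x y hx hy =>
    obtain ⟨k, hk⟩ := hx
    obtain ⟨l, hl⟩ := hy
    exact ⟨k + l, by rw [map_add, map_add]; linear_combination hk + hl⟩
  | single g r =>
    by_cases h1 : f g = 1
    · exact ⟨0, by rw [aug_single, augf_single, if_pos h1]; ring⟩
    · exact ⟨r, by rw [aug_single, augf_single, if_neg h1]; ring⟩

theorem sym_apply {A : Matrix ι ι (MonoidAlgebra ℤ Γ)} (hA : adj A = A) (i j : ι) : bar (A i j) = A j i := by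
  conv_rhs => rw [← hA]
  rfl

theorem aug_diag {A : Matrix ι ι (MonoidAlgebra ℤ Γ)} (hA : adj A = A) (hv : Visible A) (i : ι) :
    Even (augMat A i i + (A i i).coeff 1) := by
  obtain ⟨a, m, h⟩ := sym_decomp (A i i) (sym_apply hA i i) (hv i)
  rw [augMat_apply, h]
  simp only [map_add, aug_bar, aug_intCast, MonoidAlgebra.coeff_add, Finsupp.add_apply, coeff_bar,
    inv_one, coeff_intCast_one]
  exact ⟨aug a + a.coeff 1 + m, by ring⟩

/-- The characteristic element of a visible nonsingular symmetric form. -/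
theorem exists_char (A : Matrix ι ι (MonoidAlgebra ℤ Γ)) (hu : IsUnit A) (hA : adj A = A) (hv : Visible A) :
    ∃ t : ι → ℤ, (∀ i, (augMat A *ᵥ t) i = (A i i).coeff 1) ∧
      ((Matrix.of fun (_ : Fin 1) i => ((t i : ℤ) : (MonoidAlgebra ℤ Γ))) * A *
        adj (Matrix.of fun (_ : Fin 1) i => ((t i : ℤ) : (MonoidAlgebra ℤ Γ)))) 0 0 ∈ oddNorms Γ := by
  obtain ⟨U, hU⟩ := augMat_unit hu
  set S := augMat A with hS
  have hSsym : Sᵀ = S := by rw [hS, ← augMat_adj, hA]
  set δ : ι → ℤ := fun i => (A i i).coeff 1 with hδ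
  refine ⟨(U⁻¹).val *ᵥ δ, ?_, ?_⟩
  · intro i
    rw [← hU, Matrix.mulVec_mulVec, U.mul_inv, Matrix.one_mulVec]
  set t := (U⁻¹).val *ᵥ δ with ht
  have hSt : S *ᵥ t = δ := by
    rw [ht, ← hU, Matrix.mulVec_mulVec, U.mul_inv, Matrix.one_mulVec]
  have htc : ∀ i, Even ((S *ᵥ t) i + S i i) := by
    intro i
    rw [hSt, add_comm]
    exact aug_diag hA hv i
  set v : Matrix (Fin 1) ι (MonoidAlgebra ℤ Γ) := Matrix.of fun (_ : Fin 1) i => ((t i : ℤ) : (MonoidAlgebra ℤ Γ)) with hvdef
  have hq1 : adj (v * A * adj v) = v * A * adj v := by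
    rw [adj_mul, adj_mul, adj_adj, hA, Matrix.mul_assoc]
  obtain ⟨a, m, hq⟩ := sym_decomp ((v * A * adj v) 0 0) (sym_apply hq1 0 0)
    (visible_congr A hA hv v 0)
  rw [hq]
  refine (oddNorms Γ).add_mem (mem_of_forall a ?_) (int_mem m)
  intro f
  -- the twisted augmentation
  set Sf : Matrix ι ι ℤ := A.map (augf f : (MonoidAlgebra ℤ Γ) →ₐ[ℤ] ℤ) with hSf
  have hSfu : IsUnit Sf := hu.map (RingHom.mapMatrix (augf f : (MonoidAlgebra ℤ Γ) →ₐ[ℤ] ℤ).toRingHom)
  choose K hK using fun x : (MonoidAlgebra ℤ Γ) => two_dvd_diff f x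
  choose D M hDM using fun i => sym_decomp (A i i) (sym_apply hA i i) (hv i)
  classical
  let _ : LinearOrder ι := IsWellOrder.linearOrder WellOrderingRel
  set W : Matrix ι ι ℤ := Matrix.of fun i j => if i < j then K (A i j) else if i = j then K (D i)
    else 0 with hW
  have hWS : S - (2 : ℤ) • (W + Wᵀ) = Sf := by
    ext i j
    rw [Matrix.sub_apply, Matrix.smul_apply, Matrix.add_apply, Matrix.transpose_apply]
    have h1 : S i j - Sf i j = 2 * K (A i j) := by
      rw [hS, augMat_apply, hSf, Matrix.map_apply]; exact hK (A i j)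
    have h2 : K (A j i) = K (A i j) := by
      have h3 := hK (A i j)
      have h4 := hK (A j i)
      rw [← sym_apply hA i j, aug_bar, augf_bar] at h4
      have : (2 : ℤ) * K (A i j) = 2 * K (A j i) := by
        rw [← h3, h4, sym_apply hA i j]
      omega
    have h5 : i = j → K (A i j) = 2 * K (D i) := by
      intro hij
      subst hij
      have h6 := hK (A i i)
      have h7 := hK (D i)
      have h8 : aug (A i i) - augf f (A i i) = 2 * (aug (D i) - augf f (D i)) := by
        rw [hDM i]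
        simp only [map_add, aug_bar, augf_bar, map_intCast]
        ring
      rw [h8, h7] at h6
      omega
    rw [smul_eq_mul, hW, Matrix.of_apply, Matrix.of_apply]
    rcases lt_trichotomy i j with h | h | h
    · rw [if_pos h, if_neg (not_lt.mpr h.le), if_neg (ne_of_gt h)]; omega
    · have h9 := h5 h
      subst h
      rw [if_neg (lt_irrefl _), if_pos rfl]; omega
    · rw [if_neg (not_lt.mpr h.le), if_neg (ne_of_gt h), if_pos h, h2]; omega
  have heven := even_of_unimodular S W (hU ▸ U.isUnit) hSsym (hWS ▸ hSfu) t htc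
  obtain ⟨l, hl⟩ := heven
  -- compare the augmentations of `q`
  have hmap : ∀ φ : (MonoidAlgebra ℤ Γ) →ₐ[ℤ] ℤ, (∀ x, φ (bar x) = φ x) →
      φ ((v * A * adj v) 0 0) = t ⬝ᵥ ((A.map φ) *ᵥ t) := by
    intro φ hφ
    rw [Matrix.mul_assoc, Matrix.mul_apply, map_sum, dotProduct]
    refine Finset.sum_congr rfl fun i _ => ?_
    rw [map_mul, Matrix.mul_apply, map_sum, Matrix.mulVec, dotProduct]
    congr 1
    · rw [hvdef, Matrix.of_apply, map_intCast]; rfl
    · refine Finset.sum_congr rfl fun j _ => ?_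
      rw [map_mul, adj_apply, hφ, hvdef, Matrix.of_apply, map_intCast]; rfl
  have h1 : aug ((v * A * adj v) 0 0) = t ⬝ᵥ (S *ᵥ t) := by
    rw [hmap aug aug_bar, hS, augMat_eq]
  have h2 : augf f ((v * A * adj v) 0 0) = t ⬝ᵥ (Sf *ᵥ t) := hmap (augf f) (augf_bar f)
  have h3 : t ⬝ᵥ (S *ᵥ t) - t ⬝ᵥ (Sf *ᵥ t) = 4 * (t ⬝ᵥ (W *ᵥ t)) := by
    rw [← hWS, Matrix.sub_mulVec, dotProduct_sub, Matrix.smul_mulVec, dotProduct_smul,
      Matrix.add_mulVec, dotProduct_add]
    have : t ⬝ᵥ (Wᵀ *ᵥ t) = t ⬝ᵥ (W *ᵥ t) := by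
      rw [Matrix.mulVec_transpose, dotProduct_comm, ← Matrix.dotProduct_mulVec]
    rw [this, smul_eq_mul]; ring
  have h4 : aug ((v * A * adj v) 0 0) - augf f ((v * A * adj v) 0 0) =
      2 * (aug a - augf f a) := by
    rw [hq]
    simp only [map_add, aug_bar, augf_bar, map_intCast]
    ring
  rw [h1, h2, h3, hl] at h4
  exact ⟨l, by linarith⟩

/-- The orthogonal sum of a visible symmetric form with the diagonal form given by a signed sum of
odd norms is the sum of an even form and a unit form. -/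
theorem structure_theorem (A : Matrix ι ι (MonoidAlgebra ℤ Γ)) (hA : adj A = A) (hv : Visible A)
    (t : ι → ℤ) (ht : ∀ i, (augMat A *ᵥ t) i = (A i i).coeff 1) {k : ℕ} (e : Fin k → ℤˣ)
    (a : Fin k → (MonoidAlgebra ℤ Γ)) (ha : ∀ i, Odd (aug (a i)))
    (hq : ((Matrix.of fun (_ : Fin 1) i => ((t i : ℤ) : (MonoidAlgebra ℤ Γ))) * A *
      adj (Matrix.of fun (_ : Fin 1) i => ((t i : ℤ) : (MonoidAlgebra ℤ Γ)))) 0 0 +
        ∑ i, (e i : ℤ) • (a i * bar (a i)) = 0) :
    (∃ B : Matrix (ι ⊕ Fin k) (ι ⊕ Fin k) (MonoidAlgebra ℤ Γ), IsEvenForm B ∧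
      Isometric (osum (osum A (signForm Γ e)) (1 : Matrix (Fin 1) (Fin 1) (MonoidAlgebra ℤ Γ)))
        (osum B (1 : Matrix (Fin 1) (Fin 1) (MonoidAlgebra ℤ Γ)))) ∧
    (IsUnit A → (8 : ℤ) ∣ sig (augMat A) + ∑ i, (e i : ℤ)) := by
  set X : Matrix (ι ⊕ Fin k) (ι ⊕ Fin k) (MonoidAlgebra ℤ Γ) := osum A (signForm Γ e) with hX
  have hse : adj (signForm Γ e) = signForm Γ e := by
    ext1 i j
    rw [adj_apply]
    unfold signForm
    by_cases h : i = j
    · subst h; rw [diagonal_apply_eq, bar_intCast]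
    · rw [diagonal_apply_ne _ h, diagonal_apply_ne _ (Ne.symm h), bar_zero]
  have hXs : adj X = X := by
    rw [hX]; unfold osum; rw [adj_fromBlocks, hA, hse, adj_zero, adj_zero]
  set v1 : Matrix (Fin 1) ι (MonoidAlgebra ℤ Γ) := Matrix.of fun (_ : Fin 1) i => ((t i : ℤ) : (MonoidAlgebra ℤ Γ)) with hv1
  set v2 : Matrix (Fin 1) (Fin k) (MonoidAlgebra ℤ Γ) := Matrix.of fun (_ : Fin 1) i => a i with hv2
  set v : Matrix (Fin 1) (ι ⊕ Fin k) (MonoidAlgebra ℤ Γ) := Matrix.fromCols v1 v2 with hvv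
  have hadjv : adj v = Matrix.fromRows (adj v1) (adj v2) := by
    ext1 i j
    rcases i with i | i <;> rfl
  have hc : X * adj v = Matrix.fromRows (A * adj v1) (signForm Γ e * adj v2) := by
    rw [hX, hadjv]; unfold osum
    rw [Matrix.fromBlocks_mul_fromRows]; simp
  have h22 : (v2 * (signForm Γ e * adj v2)) 0 0 = ∑ i, (e i : ℤ) • (a i * bar (a i)) := by
    rw [Matrix.mul_apply]
    refine Finset.sum_congr rfl fun i _ => ?_
    unfold signForm
    rw [Matrix.diagonal_mul, adj_apply, hv2, Matrix.of_apply, zsmul_eq_mul, ← mul_assoc,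
      ← mul_assoc, mul_intCast_comm]
  have hv0 : v * X * adj v = 0 := by
    rw [Matrix.mul_assoc, hc, hvv, Matrix.fromCols_mul_fromRows]
    ext1 i j
    rw [Subsingleton.elim i 0, Subsingleton.elim j 0, Matrix.add_apply, h22, ← Matrix.mul_assoc]
    exact hq
  refine ⟨⟨_, ?_, split X hXs v hv0⟩, ?_⟩
  · have hc' : v * X = adj (X * adj v) := by rw [adj_mul, adj_adj, hXs]
    apply isEvenForm_of
    · rw [adj_sub, adj_mul, ← hc', hXs]
      congr 2
      rw [hc', adj_adj]
    · intro i s hs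
      have h1 : (X - X * adj v * (v * X)) i i = X i i - (X * adj v) i 0 * bar ((X * adj v) i 0) := by
        rw [Matrix.sub_apply, Matrix.mul_apply, Fin.sum_univ_one, hc', adj_apply]
      rw [h1, MonoidAlgebra.coeff_sub, Finsupp.sub_apply]
      by_cases hs1 : s = 1
      · subst hs1
        have h2 := norm_one ((X * adj v) i 0)
        have h3 : Even (aug ((X * adj v) i 0) + (X i i).coeff 1) := by
          rw [hc]
          rcases i with i | i
          · have h4 : aug (Matrix.fromRows (A * adj v1) (signForm Γ e * adj v2) (Sum.inl i) 0) =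
                (augMat A *ᵥ t) i := by
              rw [Matrix.fromRows_apply_inl, Matrix.mul_apply, map_sum, Matrix.mulVec, dotProduct]
              refine Finset.sum_congr rfl fun j _ => ?_
              rw [map_mul, adj_apply, aug_bar, hv1, Matrix.of_apply, aug_intCast, augMat_apply]
            rw [h4, ht i, hX]
            exact ⟨_, rfl⟩
          · have h4 : aug (Matrix.fromRows (A * adj v1) (signForm Γ e * adj v2) (Sum.inr i) 0) =
                (e i : ℤ) * aug (a i) := by
              rw [Matrix.fromRows_apply_inr]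
              unfold signForm
              rw [Matrix.diagonal_mul, map_mul, aug_intCast, adj_apply, aug_bar]; rfl
            have h5 : (X (Sum.inr i) (Sum.inr i)).coeff 1 = (e i : ℤ) := by
              rw [hX]; unfold osum signForm
              rw [Matrix.fromBlocks_apply₂₂, diagonal_apply_eq, coeff_intCast_one]
            rw [h4, h5]
            have h6 : Odd (e i : ℤ) := by
              rcases Int.units_eq_one_or (e i) with h | h <;> rw [h] <;> decide
            exact (h6.mul (ha i)).add_odd h6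
        have h5 := h3.add h2
        have h6 := h5.sub (even_two_mul (aug ((X * adj v) i 0)))
        have h7 := h6.sub (even_two_mul (((X * adj v) i 0 * bar ((X * adj v) i 0)).coeff 1))
        refine (congrArg Even ?_).mpr h7
        ring
      · refine Even.sub ?_ (norm_inv _ s hs1 hs)
        rw [hX]
        rcases i with i | i
        · exact hv i s hs1 hs
        · unfold osum signForm
          rw [Matrix.fromBlocks_apply₂₂, diagonal_apply_eq, coeff_intCast_ne _ _ hs1]
          exact Even.zero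
  · intro hu
    have hSx : augMat X = fromBlocks (augMat A) 0 0 (diagonal fun i => (e i : ℤ)) := by
      rw [hX, augMat_osum, augMat_signForm]
    have hSs : (augMat A)ᵀ = augMat A := by rw [← augMat_adj, hA]
    have h1 := vdB (augMat X) ?_ (by rw [← augMat_adj, hXs]) (Sum.elim t fun i => aug (a i)) ?_
    · have h2 : Sum.elim t (fun i => aug (a i)) ⬝ᵥ (augMat X *ᵥ Sum.elim t fun i => aug (a i)) = 0 := by
        have h3 : augMat v 0 = Sum.elim t fun i => aug (a i) := by
          ext i
          rw [augMat_apply]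
          rcases i with i | i
          · rw [hvv, Matrix.fromCols_apply_inl, hv1, Matrix.of_apply, aug_intCast]; rfl
          · rw [hvv, Matrix.fromCols_apply_inr, hv2, Matrix.of_apply]; rfl
        have h4 := congrArg augMat hv0
        rw [augMat_mul, augMat_mul, augMat_adj, augMat_zero] at h4
        have h5 := congrFun (congrFun h4 0) 0
        rw [Matrix.mul_assoc, Matrix.mul_apply] at h5
        rw [← h3, dotProduct]
        exact h5
      rw [h2, sub_zero, hSx, sig_blocks _ _ hSs (by simp), sig_diagonal] at h1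
      have h6 : ∀ i, ((e i : ℤ)).sign = (e i : ℤ) := by
        intro i
        rcases Int.units_eq_one_or (e i) with h | h <;> rw [h] <;> rfl
      simp_rw [h6] at h1
      exact h1
    · rw [hSx, Matrix.isUnit_iff_isUnit_det, Matrix.det_fromBlocks_zero₂₁, Matrix.det_diagonal]
      refine IsUnit.mul ((Matrix.isUnit_iff_isUnit_det _).mp (augMat_unit hu)) ?_
      rw [← Units.coe_prod]; exact Units.isUnit _
    · intro i
      have h7 : (augMat X *ᵥ Sum.elim t fun i => aug (a i)) =
          Sum.elim (augMat A *ᵥ t) (fun i => (e i : ℤ) * aug (a i)) := by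
        rw [hSx, Matrix.fromBlocks_mulVec]
        simp only [Sum.elim_comp_inl, Sum.elim_comp_inr, Matrix.zero_mulVec, add_zero, zero_add]
        congr 1
        ext j
        rw [Matrix.mulVec_diagonal]
      rw [h7, hSx]
      rcases i with i | i
      · rw [Sum.elim_inl, Matrix.fromBlocks_apply₁₁, ht i, add_comm]
        exact aug_diag hA hv i
      · rw [Sum.elim_inr, Matrix.fromBlocks_apply₂₂, diagonal_apply_eq]
        have h6 : Odd (e i : ℤ) := by
          rcases Int.units_eq_one_or (e i) with h | h <;> rw [h] <;> decide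
        exact (h6.mul (ha i)).add_odd h6

end

end Pool.Agent.H750
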