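import Pool.Agent.H750.Structure

set_option autoImplicit false

/-! # Twisted forms -/

namespace Pool.Agent.H750

open Matrix Pool.Agent.R791 Kronecker

variable {Γ : Type*} [Group Γ] {ι κ μ ν : Type*}

variable {d : ℕ} (ρ : Γ →* Matrix (Fin d) (Fin d) ℤ)

/-- the ring homomorphism of a representation -/
noncomputable def LL : (MonoidAlgebra ℤ Γ) →ₐ[ℤ] Matrix (Fin d) (Fin d) ℤ :=
  MonoidAlgebra.lift ℤ (Matrix (Fin d) (Fin d) ℤ) Γ ρ

/-- the block matrix -/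
noncomputable def bl (M : Matrix ι κ (MonoidAlgebra ℤ Γ)) : Matrix (ι × Fin d) (κ × Fin d) ℤ :=
  Matrix.of fun x y => LL ρ (M x.1 y.1) x.2 y.2

theorem bl_mul [Fintype κ] (M : Matrix ι κ (MonoidAlgebra ℤ Γ)) (N : Matrix κ μ (MonoidAlgebra ℤ Γ)) :
    bl ρ (M * N) = bl ρ M * bl ρ N := by
  ext x y
  unfold bl
  rw [Matrix.of_apply, Matrix.mul_apply, map_sum, Matrix.mul_apply, Fintype.sum_prod_type,
    Matrix.sum_apply]
  refine Finset.sum_congr rfl fun j _ => ?_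
  rw [map_mul, Matrix.mul_apply]
  rfl

theorem bl_one [DecidableEq ι] : bl ρ (1 : Matrix ι ι (MonoidAlgebra ℤ Γ)) = 1 := by
  ext x y
  unfold bl
  rw [Matrix.of_apply, Matrix.one_apply, Matrix.one_apply]
  by_cases h : x.1 = y.1
  · rw [if_pos h, map_one, Matrix.one_apply]
    by_cases h2 : x.2 = y.2
    · rw [if_pos h2, if_pos (Prod.ext h h2)]
    · rw [if_neg h2, if_neg (fun h3 => h2 (congrArg Prod.snd h3))]
  · rw [if_neg h, map_zero, if_neg (fun h3 => h (congrArg Prod.fst h3))]; rfl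

theorem bl_add (M N : Matrix ι κ (MonoidAlgebra ℤ Γ)) : bl ρ (M + N) = bl ρ M + bl ρ N := by
  ext x y
  unfold bl
  rw [Matrix.of_apply, Matrix.add_apply, map_add]; rfl

theorem bl_neg (M : Matrix ι κ (MonoidAlgebra ℤ Γ)) : bl ρ (-M) = -bl ρ M := by
  ext x y
  unfold bl
  rw [Matrix.of_apply, Matrix.neg_apply, map_neg]; rfl

variable (b : Matrix (Fin d) (Fin d) ℤ)

theorem LL_bar (hρ : ∀ g, (ρ g)ᵀ * b * ρ g = b) (x : (MonoidAlgebra ℤ Γ)) : b * LL ρ (bar x) = (LL ρ x)ᵀ * b := by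
  unfold LL
  induction x using MonoidAlgebra.induction_linear with
  | zero => simp
  | add x y hx hy => rw [bar_add, map_add, map_add, Matrix.mul_add, hx, hy, Matrix.transpose_add,
      Matrix.add_mul]
  | single g r =>
    rw [bar_single, MonoidAlgebra.lift_single, MonoidAlgebra.lift_single, Matrix.mul_smul,
      Matrix.transpose_smul, Matrix.smul_mul]
    congr 1
    have h1 : ρ g * ρ g⁻¹ = 1 := by rw [← map_mul, mul_inv_cancel, map_one]
    calc b * ρ g⁻¹ = (ρ g)ᵀ * b * ρ g * ρ g⁻¹ := by rw [hρ]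
      _ = (ρ g)ᵀ * b := by rw [Matrix.mul_assoc _ (ρ g), h1, Matrix.mul_one]

theorem kr_mul [Fintype ι] [DecidableEq ι] (M : Matrix (ι × Fin d) (κ × Fin d) ℤ) (x : ι × Fin d)
    (y : κ × Fin d) : (((1 : Matrix ι ι ℤ) ⊗ₖ b) * M) x y = ∑ z, b x.2 z * M (x.1, z) y := by
  rw [Matrix.mul_apply, Fintype.sum_prod_type, Finset.sum_eq_single x.1]
  · refine Finset.sum_congr rfl fun z _ => ?_
    rw [Matrix.kroneckerMap_apply]; simp
  · intro j _ hj
    refine Finset.sum_eq_zero fun z _ => ?_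
    rw [Matrix.kroneckerMap_apply, Matrix.one_apply_ne (Ne.symm hj)]; simp
  · intro h; exact absurd (Finset.mem_univ _) h

theorem mul_kr [Fintype κ] [DecidableEq κ] (M : Matrix (ι × Fin d) (κ × Fin d) ℤ) (x : ι × Fin d)
    (y : κ × Fin d) : (M * ((1 : Matrix κ κ ℤ) ⊗ₖ b)) x y = ∑ z, M x (y.1, z) * b z y.2 := by
  rw [Matrix.mul_apply, Fintype.sum_prod_type, Finset.sum_eq_single y.1]
  · refine Finset.sum_congr rfl fun z _ => ?_
    rw [Matrix.kroneckerMap_apply]; simp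
  · intro j _ hj
    refine Finset.sum_eq_zero fun z _ => ?_
    rw [Matrix.kroneckerMap_apply, Matrix.one_apply_ne hj]; simp
  · intro h; exact absurd (Finset.mem_univ _) h

theorem twist_eq [Fintype ι] [DecidableEq ι] (A : Matrix ι ι (MonoidAlgebra ℤ Γ)) :
    twist b ρ A = ((1 : Matrix ι ι ℤ) ⊗ₖ b) * bl ρ A := by
  ext x y
  rw [kr_mul]
  unfold twist bl LL
  rw [Matrix.of_apply, Matrix.mul_apply]
  refine Finset.sum_congr rfl fun z _ => ?_
  rw [Matrix.of_apply, MonoidAlgebra.lift_apply]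

theorem bl_adj [Fintype ι] [DecidableEq ι] [Fintype κ] [DecidableEq κ]
    (hρ : ∀ g, (ρ g)ᵀ * b * ρ g = b) (M : Matrix ι κ (MonoidAlgebra ℤ Γ)) :
    (bl ρ M)ᵀ * ((1 : Matrix ι ι ℤ) ⊗ₖ b) = ((1 : Matrix κ κ ℤ) ⊗ₖ b) * bl ρ (adj M) := by
  ext x y
  rw [kr_mul, mul_kr]
  have h := congrFun (congrFun (LL_bar ρ b hρ (M y.1 x.1)) x.2) y.2
  rw [Matrix.mul_apply, Matrix.mul_apply] at h
  exact h.symm

section

variable [Fintype ι] [DecidableEq ι] [Fintype κ] [DecidableEq κ]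

theorem kr_unit (hb : IsUnit b) : IsUnit ((1 : Matrix ι ι ℤ) ⊗ₖ b) := by
  rw [Matrix.isUnit_iff_isUnit_det, Matrix.det_kronecker]
  refine IsUnit.mul ?_ (((Matrix.isUnit_iff_isUnit_det b).mp hb).pow _)
  rw [Matrix.det_one, one_pow]
  exact isUnit_one

theorem kr_transpose : ((1 : Matrix ι ι ℤ) ⊗ₖ b)ᵀ = (1 : Matrix ι ι ℤ) ⊗ₖ bᵀ := by
  ext x y
  rw [Matrix.transpose_apply, Matrix.kroneckerMap_apply, Matrix.kroneckerMap_apply,
    Matrix.transpose_apply]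
  congr 1
  rw [Matrix.one_apply, Matrix.one_apply]
  simp [eq_comm]

/-- invariance under isometries -/
theorem sig_twist_congr (hρ : ∀ g, (ρ g)ᵀ * b * ρ g = b) {A : Matrix ι ι (MonoidAlgebra ℤ Γ)} {B : Matrix κ κ (MonoidAlgebra ℤ Γ)}
    (h : Isometric A B) : sig (twist b ρ B) = sig (twist b ρ A) ∧
      (IsUnit (twist b ρ A) → IsUnit (twist b ρ B)) := by
  obtain ⟨P, Q, h1, h2, rfl⟩ := h
  have e : twist b ρ (P * A * adj P) = (bl ρ (adj P))ᵀ * twist b ρ A * bl ρ (adj P) := by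
    rw [twist_eq, twist_eq, bl_mul, bl_mul, ← Matrix.mul_assoc, ← Matrix.mul_assoc,
      ← Matrix.mul_assoc, bl_adj ρ b hρ, adj_adj]
  have h3 : bl ρ (adj P) * bl ρ (adj Q) = 1 := by rw [← bl_mul, ← adj_mul, h2, adj_one, bl_one]
  have h4 : bl ρ (adj Q) * bl ρ (adj P) = 1 := by rw [← bl_mul, ← adj_mul, h1, adj_one, bl_one]
  refine ⟨by rw [e]; exact sig_congr _ _ _ h3 h4, ?_⟩
  rintro ⟨U, hU⟩
  rw [e, ← hU]
  refine ⟨⟨(bl ρ (adj P))ᵀ * U.val * bl ρ (adj P), bl ρ (adj Q) * (U⁻¹).val * (bl ρ (adj Q))ᵀ,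
    ?_, ?_⟩, rfl⟩
  · calc (bl ρ (adj P))ᵀ * U.val * bl ρ (adj P) * (bl ρ (adj Q) * (U⁻¹).val * (bl ρ (adj Q))ᵀ)
        = (bl ρ (adj P))ᵀ * (U.val * (bl ρ (adj P) * bl ρ (adj Q)) * (U⁻¹).val) *
          (bl ρ (adj Q))ᵀ := by simp only [Matrix.mul_assoc]
      _ = 1 := by rw [h3, Matrix.mul_one, U.mul_inv, Matrix.mul_one, ← Matrix.transpose_mul, h4,
          Matrix.transpose_one]
  · calc bl ρ (adj Q) * (U⁻¹).val * (bl ρ (adj Q))ᵀ * ((bl ρ (adj P))ᵀ * U.val * bl ρ (adj P))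
        = bl ρ (adj Q) * ((U⁻¹).val * ((bl ρ (adj Q))ᵀ * (bl ρ (adj P))ᵀ) * U.val) *
          bl ρ (adj P) := by simp only [Matrix.mul_assoc]
      _ = 1 := by rw [← Matrix.transpose_mul, h3, Matrix.transpose_one, Matrix.mul_one, U.inv_mul,
          Matrix.mul_one, h4]

theorem twist_symm (hρ : ∀ g, (ρ g)ᵀ * b * ρ g = b) (hb : bᵀ = b) {A : Matrix ι ι (MonoidAlgebra ℤ Γ)}
    (hA : adj A = A) : (twist b ρ A)ᵀ = twist b ρ A := by
  rw [twist_eq, Matrix.transpose_mul, kr_transpose, hb, bl_adj ρ b hρ, hA]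

theorem twist_symm' (hρ : ∀ g, (ρ g)ᵀ * b * ρ g = b) (hb : bᵀ = -b) {A : Matrix ι ι (MonoidAlgebra ℤ Γ)}
    (hA : adj A = -A) : (twist b ρ A)ᵀ = twist b ρ A := by
  have h : ((1 : Matrix ι ι ℤ) ⊗ₖ (-b)) = -((1 : Matrix ι ι ℤ) ⊗ₖ b) := by
    ext x y; rw [Matrix.neg_apply, Matrix.kroneckerMap_apply, Matrix.kroneckerMap_apply]; simp
  rw [twist_eq, Matrix.transpose_mul, kr_transpose, hb, h, Matrix.mul_neg, bl_adj ρ b hρ, hA,
    bl_neg, Matrix.mul_neg, neg_neg]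

theorem bl_unit {A : Matrix ι ι (MonoidAlgebra ℤ Γ)} (hA : IsUnit A) : IsUnit (bl ρ A) := by
  obtain ⟨U, rfl⟩ := hA
  exact ⟨⟨bl ρ U.val, bl ρ (U⁻¹).val, by rw [← bl_mul, U.mul_inv, bl_one],
    by rw [← bl_mul, U.inv_mul, bl_one]⟩, rfl⟩

theorem twist_unit (hb : IsUnit b) {A : Matrix ι ι (MonoidAlgebra ℤ Γ)} (hA : IsUnit A) :
    IsUnit (twist b ρ A) := by
  rw [twist_eq]; exact (kr_unit b hb).mul (bl_unit ρ hA)

theorem twist_even (hρ : ∀ g, (ρ g)ᵀ * b * ρ g = b) (hb : bᵀ = b) {B : Matrix ι ι (MonoidAlgebra ℤ Γ)}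
    (hB : IsEvenForm B) (x : ι × Fin d) : Even (twist b ρ B x x) := by
  obtain ⟨ψ, rfl⟩ := hB
  have h : twist b ρ (ψ + adj ψ) = twist b ρ ψ + (twist b ρ ψ)ᵀ := by
    rw [twist_eq, twist_eq, bl_add, Matrix.mul_add, Matrix.transpose_mul, kr_transpose, hb,
      bl_adj ρ b hρ]
  rw [h, Matrix.add_apply, Matrix.transpose_apply]
  exact ⟨_, rfl⟩

theorem twist_skew (hρ : ∀ g, (ρ g)ᵀ * b * ρ g = b) (hb : bᵀ = -b) {A : Matrix ι ι (MonoidAlgebra ℤ Γ)}
    (hA : adj A = -A) (x : ι × Fin d) : Even (twist b ρ A x x) := by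
  have hs : ∀ i j, bar (A i j) = - A j i := by
    intro i j
    have h := congrFun (congrFun hA j) i
    exact h
  obtain ⟨a, ha⟩ := halve_skew (A x.1 x.1) (hs _ _)
  have h1 : twist b ρ A x x = (b * LL ρ (A x.1 x.1)) x.2 x.2 := by
    unfold twist LL; rw [Matrix.of_apply, MonoidAlgebra.lift_apply]
  have h2 : b * LL ρ (bar a) = -(b * LL ρ a)ᵀ := by
    rw [LL_bar ρ b hρ, Matrix.transpose_mul, hb, Matrix.mul_neg, neg_neg]
  rw [h1, ha, map_sub, Matrix.mul_sub, h2, sub_neg_eq_add, Matrix.add_apply, Matrix.transpose_apply]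
  exact ⟨_, rfl⟩

theorem sig_twist_osum (hρ : ∀ g, (ρ g)ᵀ * b * ρ g = b) (hb : bᵀ = b) {A : Matrix ι ι (MonoidAlgebra ℤ Γ)}
    {B : Matrix κ κ (MonoidAlgebra ℤ Γ)} (hA : adj A = A) (hB : adj B = B) :
    sig (twist b ρ (osum A B)) = sig (twist b ρ A) + sig (twist b ρ B) ∧
      (IsUnit (twist b ρ (osum A B)) → IsUnit (twist b ρ B) ∧ IsUnit (twist b ρ A)) := by
  have e : twist b ρ (osum A B) = (fromBlocks (twist b ρ A) 0 0 (twist b ρ B)).submatrix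
      (Equiv.sumProdDistrib ι κ (Fin d)) (Equiv.sumProdDistrib ι κ (Fin d)) := by
    ext x y
    obtain ⟨x1, x2⟩ := x
    obtain ⟨y1, y2⟩ := y
    rcases x1 with x1 | x1 <;> rcases y1 with y1 | y1 <;> simp [twist, osum]
  refine ⟨?_, ?_⟩
  · rw [e, sig_submatrix, sig_blocks _ _ (twist_symm ρ b hρ hb hA) (twist_symm ρ b hρ hb hB)]
  · intro h
    rw [e, Matrix.isUnit_iff_isUnit_det, Matrix.det_submatrix_equiv_self,
      Matrix.det_fromBlocks_zero₂₁] at h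
    exact ⟨(Matrix.isUnit_iff_isUnit_det _).mpr (isUnit_of_mul_isUnit_right h),
      (Matrix.isUnit_iff_isUnit_det _).mpr (isUnit_of_mul_isUnit_left h)⟩

theorem sig_twist_signForm (hb : bᵀ = b) {k : ℕ} (e : Fin k → ℤˣ) :
    sig (twist b ρ (signForm Γ e)) = (∑ i, (e i : ℤ)) * sig b := by
  obtain ⟨P, c, hP, hc⟩ := exists_diag b hb
  rw [sig_of_diag b P c hP hc]
  have h1 : twist b ρ (signForm Γ e) = (diagonal fun i => (e i : ℤ)) ⊗ₖ b := by
    ext x y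
    rw [Matrix.kroneckerMap_apply]
    unfold twist signForm
    rw [Matrix.of_apply, ← MonoidAlgebra.lift_apply]
    by_cases h : x.1 = y.1
    · rw [h, diagonal_apply_eq, diagonal_apply_eq, map_intCast]
      rw [← (Int.cast_commute _ b).eq, ← zsmul_eq_mul]; rfl
    · rw [diagonal_apply_ne _ h, diagonal_apply_ne _ h, map_zero]; simp
  rw [h1, sig_of_diag _ ((1 : Matrix (Fin k) (Fin k) ℤ) ⊗ₖ P) (fun x => (e x.1 : ℤ) * c x.2)]
  · rw [Fintype.sum_prod_type, Finset.sum_mul]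
    refine Finset.sum_congr rfl fun i _ => ?_
    rw [Finset.mul_sum]
    refine Finset.sum_congr rfl fun j _ => ?_
    rcases Int.units_eq_one_or (e i) with h | h <;> rw [h] <;> simp [Int.sign_neg]
  · rw [Matrix.det_kronecker]
    exact mul_ne_zero (by simp) (pow_ne_zero _ hP)
  · rw [kr_transpose, ← Matrix.mul_kronecker_mul, ← Matrix.mul_kronecker_mul, hc]
    ext x y
    rw [Matrix.kroneckerMap_apply, Matrix.one_mul, Matrix.mul_one]
    by_cases h : x = y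
    · subst h; rw [diagonal_apply_eq, diagonal_apply_eq, diagonal_apply_eq]
    · rw [diagonal_apply_ne (fun x : Fin k × Fin d => (e x.1 : ℤ) * c x.2) h]
      by_cases h2 : x.1 = y.1
      · rw [diagonal_apply_ne c (fun h3 => h (Prod.ext h2 h3)), mul_zero]
      · rw [diagonal_apply_ne _ h2, zero_mul]

end

end Pool.Agent.H750
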