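import Pool.Agent.H750.Sig

set_option autoImplicit false

/-! # The theorem of van der Blij, signatures of block sums, characteristic vectors -/

namespace Pool.Agent.H750

open Matrix

variable {ι κ : Type*} [Fintype ι] [DecidableEq ι] [Fintype κ] [DecidableEq κ]

theorem sum_fixed {α R : Type*} [Fintype α] [DecidableEq α] [AddCommMonoid R]
    (h2 : ∀ r : R, r + r = 0) (σ : α → α) (hσ : ∀ x, σ (σ x) = x) (f : α → R)
    (hf : ∀ x, f (σ x) = f x) : ∑ x, f x = ∑ x ∈ Finset.univ.filter (fun x => σ x = x), f x := by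
  rw [← Finset.sum_filter_add_sum_filter_not Finset.univ (fun x => σ x = x) f]
  have h : ∑ x ∈ Finset.univ.filter (fun x => ¬ σ x = x), f x = 0 := by
    refine Finset.sum_involution (fun x _ => σ x) ?_ ?_ ?_ ?_
    · intro x _; rw [hf]; exact h2 _
    · intro x hx _; exact (Finset.mem_filter.mp hx).2
    · intro x hx
      rw [Finset.mem_filter] at hx ⊢
      refine ⟨Finset.mem_univ _, ?_⟩
      rw [hσ]; exact fun h => hx.2 h.symm
    · intro x _; exact hσ x
  rw [h, add_zero]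

theorem sum_symm_two {R : Type*} [AddCommMonoid R] (h2 : ∀ r : R, r + r = 0)
    (f : ι → ι → R) (hf : ∀ i j, f i j = f j i) : ∑ i, ∑ j, f i j = ∑ i, f i i := by
  rw [← Fintype.sum_prod_type']
  rw [sum_fixed h2 (fun p : ι × ι => p.swap) (fun p => Prod.swap_swap p) (fun p => f p.1 p.2)
    (fun p => hf _ _)]
  refine Finset.sum_bij' (fun p _ => p.1) (fun i _ => (i, i)) ?_ ?_ ?_ ?_ ?_
  · intro p _; exact Finset.mem_univ _
  · intro i _; simp
  · intro p hp
    rw [Finset.mem_filter] at hp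
    have := hp.2
    ext
    · rfl
    · have h := congrArg Prod.fst this; simpa using h.symm
  · intro i _; rfl
  · intro p hp
    rw [Finset.mem_filter] at hp
    have h := congrArg Prod.fst hp.2
    simp only [Prod.fst_swap] at h
    rw [h]

/-- parity of the values of a symmetric form -/
theorem parity (M : Matrix ι ι ℤ) (hM : Mᵀ = M) (x : ι → ℤ) :
    Even (x ⬝ᵥ (M *ᵥ x) + ∑ i, x i * M i i) := by
  have h2 : ∀ r : ZMod 2, r + r = 0 := by decide
  rw [← ZMod.intCast_eq_zero_iff_even, dotProduct]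
  push_cast
  have h1 : ∀ i, ((M *ᵥ x) i : ZMod 2) = ∑ j, (M i j : ZMod 2) * x j := by
    intro i; rw [Matrix.mulVec, dotProduct]; push_cast; rfl
  simp_rw [h1, Finset.mul_sum]
  rw [sum_symm_two h2 (fun i j => (x i : ZMod 2) * (M i j * x j))]
  · rw [← Finset.sum_add_distrib]
    refine Finset.sum_eq_zero fun i _ => ?_
    have h3 : ∀ a b : ZMod 2, a * (b * a) + a * b = 0 := by decide
    exact h3 _ _
  · intro i j
    have h4 : M i j = M j i := by rw [← Matrix.transpose_apply M j i, hM]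
    rw [h4]; ring

/-- **van der Blij's theorem.** -/
theorem vdB (S : Matrix ι ι ℤ) (hS : IsUnit S) (hsym : Sᵀ = S) (t : ι → ℤ)
    (ht : ∀ i, Even ((S *ᵥ t) i + S i i)) : (8 : ℤ) ∣ sig S - t ⬝ᵥ (S *ᵥ t) := by
  obtain ⟨P, d, hP, hd⟩ := exists_diag S hsym
  rw [sig_of_diag S P d hP hd]
  refine GS.vdB_diag S P d t hS hsym ?_ hd ?_
  · intro x
    have h1 := parity S hsym x
    have h2 : Even (∑ i, x i * ((S *ᵥ t) i + S i i)) :=
      Finset.even_sum _ fun i _ => (ht i).mul_left _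
    have h3 : x ⬝ᵥ (S *ᵥ x) + x ⬝ᵥ (S *ᵥ t) = (x ⬝ᵥ (S *ᵥ x) + ∑ i, x i * S i i) +
        (∑ i, x i * ((S *ᵥ t) i + S i i)) - 2 * ∑ i, x i * S i i := by
      have h4 : x ⬝ᵥ (S *ᵥ t) = ∑ i, x i * (S *ᵥ t) i := rfl
      have h5 : (∑ i, x i * ((S *ᵥ t) i + S i i)) = ∑ i, x i * (S *ᵥ t) i + ∑ i, x i * S i i := by
        rw [← Finset.sum_add_distrib]
        exact Finset.sum_congr rfl fun i _ => by ring
      rw [h4, h5]; ring
    rw [h3]
    exact (h1.add h2).sub (even_two_mul _)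
  · intro i h0
    have h1 := congrArg Matrix.det hd
    rw [Matrix.det_mul, Matrix.det_mul, Matrix.det_diagonal, Finset.prod_eq_zero
      (Finset.mem_univ i) h0, Matrix.det_transpose] at h1
    have h2 : S.det ≠ 0 := ((Matrix.isUnit_iff_isUnit_det S).mp hS).ne_zero
    exact mul_ne_zero (mul_ne_zero hP h2) hP h1

theorem sig_even (S : Matrix ι ι ℤ) (hS : IsUnit S) (hsym : Sᵀ = S) (he : ∀ i, Even (S i i)) :
    (8 : ℤ) ∣ sig S := by
  have h := vdB S hS hsym 0 (by intro i; simpa using he i)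
  simpa using h

theorem sig_blocks (M : Matrix ι ι ℤ) (N : Matrix κ κ ℤ) (hM : Mᵀ = M) (hN : Nᵀ = N) :
    sig (fromBlocks M 0 0 N) = sig M + sig N := by
  obtain ⟨P, d, hP, hd⟩ := exists_diag M hM
  obtain ⟨Q, e, hQ, he⟩ := exists_diag N hN
  rw [sig_of_diag M P d hP hd, sig_of_diag N Q e hQ he,
    sig_of_diag (fromBlocks M 0 0 N) (fromBlocks P 0 0 Q) (Sum.elim d e) ?_ ?_]
  · rw [Fintype.sum_sum_type]; rfl
  · rw [Matrix.det_fromBlocks_zero₂₁]; exact mul_ne_zero hP hQ
  · rw [Matrix.fromBlocks_transpose, Matrix.fromBlocks_multiply, Matrix.fromBlocks_multiply]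
    simp only [Matrix.transpose_zero, Matrix.mul_zero, Matrix.zero_mul, add_zero, zero_add]
    rw [hd, he, Matrix.fromBlocks_diagonal]

theorem sig_diagonal (d : ι → ℤ) : sig (diagonal d) = ∑ i, (d i).sign :=
  sig_of_diag _ 1 d (by simp) (by simp)

theorem sig_neg (M : Matrix ι ι ℤ) (hM : Mᵀ = M) : sig (-M) = - sig M := by
  obtain ⟨P, d, hP, hd⟩ := exists_diag M hM
  rw [sig_of_diag M P d hP hd, sig_of_diag (-M) P (fun i => - d i) hP ?_]
  · simp [Int.sign_neg]
  · rw [Matrix.mul_neg, Matrix.neg_mul, hd, ← Matrix.diagonal_neg]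

theorem sig_submatrix (M : Matrix ι ι ℤ) (e : κ ≃ ι) : sig (M.submatrix e e) = sig M := by
  have h := sig_congr M (Matrix.of fun (i : ι) (k : κ) => if i = e k then (1 : ℤ) else 0)
    (Matrix.of fun (k : κ) (i : ι) => if i = e k then (1 : ℤ) else 0) ?_ ?_
  · rw [← h]
    congr 1
    ext k l
    rw [Matrix.submatrix_apply, Matrix.mul_apply]
    simp [Matrix.mul_apply]
  · ext i j
    rw [Matrix.mul_apply, Matrix.one_apply]
    simp only [Matrix.of_apply]
    rw [← e.symm.sum_comp]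
    simp [eq_comm]
  · ext k l
    rw [Matrix.mul_apply, Matrix.one_apply]
    simp only [Matrix.of_apply]
    simp [eq_comm]

end Pool.Agent.H750
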